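import Pool.Agent.H16.TO.AllTwo
import Pool.Agent.H14.TW.SC
import Pool.Agent.H67.TW.CL
import Pool.Agent.H67.TW.CT
import Pool.Agent.H67.TW.EV
import Pool.Agent.H19.TW.LO
import Pool.Agent.H19.TW.OK
import Pool.Agent.H19.TW.N1
import Pool.Agent.H19.TW.RS
import Pool.Agent.H65.TW.FB
import Pool.Agent.H65.TW.RX
import Pool.Agent.H65.TW.RC
import Pool.Agent.H58.TW.FS
import Pool.Agent.H58.TW.FT
import Pool.Agent.H87.TW.CE

/-!
# One order: all modules put together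
-/

set_option autoImplicit false

namespace Pool.Agent.H16.TO

open Pool.Agent.H69.Sp Pool.Agent.H69.Mt
open Pool.Agent

theorem t_n1 : T_N1 :=
  H19.TW.N1.pf_n1 t_b1 H67.TW.pf_cl H14.TW.pf_sc H67.TW.pf_ev H67.TW.pf_ge H67.TW.pf_bf
    H19.TW.LO.pf_lo (H19.TW.OK.pf_ok H67.TW.pf_ct H19.TW.LO.pf_lo)

theorem t_rx : T_RX := H65.TW.pf_rx H65.TW.pf_fb

theorem t_rc : T_RC := H65.TW.pf_rc H19.TW.RS.pf_rs t_rx

theorem t_ro : T_RO := H65.TW.pf_ro H19.TW.RS.pf_rs t_rx t_rc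

theorem t_ft : T_FT := H58.TW.pf_ft H58.TW.pf_fi H58.TW.pf_fs

theorem t_ce : T_CE := H87.TW.pf_ce H58.TW.pf_fi H58.TW.pf_fa t_ft t_rc t_ro

theorem t_p1 : T_P1 := pf_p1 t_n1 t_ce

end Pool.Agent.H16.TO
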