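import Pool.Agent.H16.TO.Asm2
import Pool.Agent.H3.TW.BR
import Pool.Agent.H3.TW.KY
import Pool.Agent.H71.TO.TR
import Pool.Agent.H14.TW.B12
import Pool.Agent.H89.TO.CD
import Pool.Agent.H47.TW.SU
import Pool.Agent.H47.TW.MR
import Pool.Agent.H47.TW.S1
import Pool.Agent.H74.TW.AM
import Pool.Agent.H21.TW.TA
import Pool.Agent.H21.TW.LS
import Pool.Agent.H33.TW.SH
import Pool.Agent.H33.TW.LV
import Pool.Agent.H74.TW.TB
import Pool.Agent.H69.TW.CY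
import Pool.Agent.H86.TW.CA
import Pool.Agent.H86.TW.CB
import Pool.Agent.H42.TW.CN
import Pool.Agent.H87.TW.GI
import Pool.Agent.H87.TW.GC
import Pool.Agent.H12.TW.CM
import Pool.Agent.H12.TW.GS
import Pool.Agent.H13.TW.GT
import Pool.Agent.H50.TW.SF
import Pool.Agent.H58.TW.FA
import Pool.Agent.H84.TW.PB

/-!
# Two orders: all modules put together
-/

set_option autoImplicit false

namespace Pool.Agent.H16.TO

open Pool.Agent.H69.Sp Pool.Agent.H69.Mt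
open Pool.Agent

theorem t_s1 : T_S1 := H47.TW.pf_s1 H3.TW.pf_br H58.TW.pf_fi (H50.TW.pf_sf H50.TW.pf_cq)

theorem t_b1 : T_B1 := H14.TW.pf_b1 H3.TW.pf_br H3.TW.pf_ky H71.TO.pf_tr

theorem t_b2 : T_B2 := H14.TW.pf_b2 H3.TW.pf_br H3.TW.pf_ky H71.TO.pf_tr

theorem t_ls : T_LS := H21.TW.pf_ls H33.TW.pf_lv H69.TW.pf_cy

theorem t_gs : T_GS :=
  H12.TW.pf_gs H42.TW.pf_cn (H12.TW.pf_cm) (H87.TW.pf_gi H42.TW.pf_cn)

theorem t_gt : T_GT := H13.TW.pf_gt t_gs H87.TW.pf_gc H87.TW.pf_tf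

theorem t_q2 : T_Q2 :=
  pf_q2 H89.TO.pf_cd H3.TW.pf_ky H47.TW.pf_su t_b2 (H74.TW.pf_am H47.TW.pf_su)
    (H21.TW.pf_ta H33.TW.pf_sh) H74.TW.TB.pf_tb (H86.TW.pf_ca t_ls H47.TW.pf_mr)
    (H86.TW.pf_cb H69.TW.pf_cy H69.TW.pf_ds H47.TW.pf_mr) t_gt

theorem t_q3 : [∀ S, IsSpectrum S → IsSpectrum (posCompl S),
      ∀ φ : C2, φ.NoCount → φ.BinLt 4 → IsSpectrum (posCompl (specS φ)),
      ∀ φ : C2, φ.BinLt 4 → IsSpectrum (posCompl (specO 2 φ))].TFAE :=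
  pf_q3 t_q2 t_s1 H84.TW.pf_pb H89.TO.pf_cd H3.TW.pf_ky H47.TW.pf_su

end Pool.Agent.H16.TO
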