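import Pool.Agent.H16.TO.Targets

/-!
# Two-variable logic with counting over linear orders: assembly
-/

set_option autoImplicit false

namespace Pool.Agent.H16.TO

open Pool.Agent.H69.Sp Pool.Agent.H69.Mt

/-- one order -/
theorem pf_p1 (hN : T_N1) (hC : T_CE) : T_P1 := by
  intro φ
  obtain ⟨Λ, Θ, i1, i2, i3, i4, i5, i6, K, Ok, h⟩ := hN φ
  have h1 := hC Λ Θ K Ok
  convert h1 using 1
  ext n
  unfold posCompl
  simp only [Set.mem_ofPred_eq, h n, not_and]
  constructor
  · rintro ⟨h2, h3⟩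
    exact ⟨h2, h3 h2⟩
  · rintro ⟨h2, h3⟩
    exact ⟨h2, fun _ => h3⟩

/-- systems with two orders are given by formulas -/
theorem pf_eb (hB : T_B2) (hA : T_AD) (hM : T_AM) : T_EB := by
  intro Q _ τ
  obtain ⟨k, ⟨e⟩⟩ := Finite.exists_equiv_fin Q
  have he : Function.Injective (fun q : Q => (e q).val) :=
    fun a b hab => e.injective (Fin.ext hab)
  obtain ⟨φ, h1, h2⟩ := hA Q τ _ he
  refine ⟨φ, h1, fun n => ?_⟩
  rw [hB φ n]
  refine and_congr_right fun hn => ?_
  rw [← hM Q τ _ he n hn]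
  refine exists_congr fun P => exists_congr fun R => exists_congr fun key => ?_
  refine and_congr_right fun _ => and_congr_right fun _ => and_congr_right fun _ => ?_
  constructor
  · intro h3
    exact (h2 n P R (fun _ => 0) (fun _ => hn)).1 (h3 _ fun _ => hn)
  · intro h3 s hs
    exact (h2 n P R s hs).2 h3

/-- tilings of boxes are given by formulas -/
theorem pf_en (hE : T_EB) (hTA : T_TA) (hTB : T_TB) (hCA : T_CA) (hCB : T_CB) : T_EN := by
  intro r T _ G H hr
  obtain ⟨φ, h1, h2⟩ := hE (Fin (2 * r) × Cell r T) (bTS G H)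
  refine ⟨φ, h1, fun N => ?_⟩
  rw [h2 N]
  constructor
  · rintro ⟨hN, lab, key, h3⟩
    obtain ⟨K, hK, hNK, cl, s, h4⟩ := hTA r T G H N lab key hr hN h3
    obtain ⟨n, h5, h6, h7⟩ := hCA r T G H K cl s hK h4
    exact ⟨n, h5, by rw [hNK, h6], h7⟩
  · rintro ⟨n, h5, h6, h7⟩
    obtain ⟨cl, s, h8⟩ := hCB r T G H n h5 h7
    have hK : 0 < wt n r := Finset.prod_pos fun i _ => h5.1 i
    obtain ⟨lab, key, h9⟩ := hTB r T G H (wt n r) cl s hr hK h8
    refine ⟨by rw [h6]; positivity, lab, key, by rw [h6]; exact h9⟩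

/-- two orders -/
theorem pf_p2 (hG : T_GT) (hE : T_EN) : T_P2 := by
  intro S hS
  obtain ⟨r, T, G, H, hr, hT, h1⟩ := hG S hS
  obtain ⟨φ, h2, h3⟩ := hE r T G H hr
  refine ⟨φ, r, hr, h2, fun n hn => ?_⟩
  rw [h3]
  have hw : ∀ (n' : ℕ → ℕ) (m : ℕ), (∀ i < r, n' i = m) → wt n' r = m ^ r := by
    intro n' m h4
    unfold wt
    rw [Finset.prod_congr rfl fun i hi => h4 i (Finset.mem_range.1 hi), Finset.prod_const,
      Finset.card_range]
  constructor
  · intro h4
    set n' : ℕ → ℕ := fun i => if i < r then n else 1 with hn'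
    have h5 : Box r n' := by
      refine ⟨fun i => ?_, fun i hi => ?_⟩
      · rw [hn']; dsimp only; split_ifs <;> omega
      · rw [hn']; dsimp only; rw [if_neg (by omega)]
    have h6 : ∀ i < r, n' i = n := fun i hi => by rw [hn']; dsimp only; rw [if_pos hi]
    exact ⟨n', h5, by rw [hw n' n h6], (h1 n' h5).2 ⟨n, h4, h6⟩⟩
  · rintro ⟨n', h5, h6, h7⟩
    obtain ⟨m, h8, h9⟩ := (h1 n' h5).1 h7
    rw [hw n' m h9] at h6
    have h10 : n ^ r = m ^ r := Nat.eq_of_mul_eq_mul_left (by omega) h6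
    have h11 : n = m := Nat.pow_left_injective (by omega) h10
    rwa [h11]

/-- the equivalence -/
theorem pf_p3 (h2 : T_P2) (hS : T_S1) (hP : T_PB) : T_P3 := by
  constructor
  · intro h φ _
    exact h _ (hS 2 φ)
  · intro h S hS'
    obtain ⟨φ, r, hr, h3, h4⟩ := h2 S hS'
    have h5 := hP _ (h φ h3) (2 * r) r (by omega) hr
    convert h5 using 1
    ext n
    unfold posCompl
    simp only [Set.mem_ofPred_eq]
    refine and_congr_right fun hn => ?_
    rw [h4 n hn]
    constructor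
    · intro h6
      exact ⟨by positivity, h6⟩
    · intro h6
      exact h6.2

end Pool.Agent.H16.TO
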