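import Pool.Agent.H16.TO.Cdf
import Pool.Agent.H3.TW.BR

/-!
# Successor relations
-/

set_option autoImplicit false

namespace Pool.Agent.H16.TO

open Pool.Agent.H3.TW

/-- the axioms for the successor relations are definable with counting -/
theorem cd_succAx (h : T_CD) : CD (fun n _ R _ _ => SuccAx n R) := by
  obtain ⟨cP, cR, cE, cC, cN, cA, cO, cI, cAx, cAy, cEx, cEy, cK, cFa, cFe⟩ := h
  have hsub : ∀ i < 4, ∀ j < 4, CD (fun n _ R _ _ => ∀ a < n, ∀ b < n, R i a b → R j a b) :=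
    fun i hi j hj => cAx (fun n _ R x _ => ∀ b < n, R i x b → R j x b)
      (cAy (fun _ _ R x y => R i x y → R j x y) (cI _ _ (cR i hi).1 (cR j hj).1))
  have hcnt : ∀ i < 4, CD (fun n _ R _ _ => ∀ b < n, ¬ 2 ≤ {a | a < n ∧ R i a b}.ncard) :=
    fun i hi => cAy (fun n _ R _ y => ¬ 2 ≤ {a | a < n ∧ R i a y}.ncard)
      (cN _ (cK (fun _ _ R x y => R i x y) 2 (cR i hi).1))
  have hsx : ∀ i < 4, CD (fun n _ R x _ => ∃ b < n, R i x b) := fun i hi =>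
    cEy (fun _ _ R x y => R i x y) (cR i hi).1
  have htot : ∀ i < 4, ∀ j < 4,
      CD (fun n _ R _ _ => ∀ a < n, (∃ b < n, R i a b) → ∃ b < n, R j a b) := fun i hi j hj =>
    cAx (fun n _ R x _ => (∃ b < n, R i x b) → ∃ b < n, R j x b) (cI _ _ (hsx i hi) (hsx j hj))
  exact cA _ _ (cA _ _ (hsub 2 (by norm_num) 0 (by norm_num)) (cA _ _ (hcnt 2 (by norm_num))
    (htot 0 (by norm_num) 2 (by norm_num)))) (cA _ _ (hsub 3 (by norm_num) 1 (by norm_num))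
    (cA _ _ (hcnt 3 (by norm_num)) (htot 1 (by norm_num) 3 (by norm_num))))

/-- covers in a strict linear order are covers of the keys -/
theorem succ_iff_cov {n : ℕ} {r : ℕ → ℕ → Prop} {key : ℕ → ℕ}
    (hk : ∀ a < n, ∀ b < n, (r a b ↔ key a < key b)) {s : Fin n → Fin n → Prop} :
    IsSucc (fun a b : Fin n => r a.val b.val) s ↔ ∀ a b : Fin n, s a b ↔ Cov key n a.val b.val := by
  unfold IsSucc Cov
  refine forall₂_congr fun a b => ?_
  have h1 : (r a.val b.val ∧ ∀ c : Fin n, ¬ (r a.val c.val ∧ r c.val b.val)) ↔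
      (key a.val < key b.val ∧ ∀ c < n, ¬ (key a.val < key c ∧ key c < key b.val)) := by
    refine and_congr (hk _ a.isLt _ b.isLt) ?_
    constructor
    · intro h c hc
      have := h ⟨c, hc⟩
      rwa [hk _ a.isLt _ hc, hk _ hc _ b.isLt] at this
    · intro h c
      have := h c.val c.isLt
      rwa [hk _ a.isLt _ c.isLt, hk _ c.isLt _ b.isLt]
  rw [h1]

/-- the relation of covers satisfies the axioms -/
theorem cov_ax {n : ℕ} {r s : ℕ → ℕ → Prop} {key : ℕ → ℕ}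
    (hi : ∀ a < n, ∀ b < n, key a = key b → a = b)
    (hk : ∀ a < n, ∀ b < n, (r a b ↔ key a < key b))
    (hs : ∀ a < n, ∀ b < n, (s a b ↔ Cov key n a b)) :
    (∀ a < n, ∀ b < n, s a b → r a b) ∧ (∀ b < n, ¬ 2 ≤ {a | a < n ∧ s a b}.ncard) ∧
      (∀ a < n, (∃ b < n, r a b) → ∃ b < n, s a b) := by
  refine ⟨?_, ?_, ?_⟩
  · intro a ha b hb h
    exact (hk a ha b hb).2 ((hs a ha b hb).1 h).1
  · intro b hb h
    have hf : {a | a < n ∧ s a b}.Finite := (Set.finite_lt_nat n).subset fun a ha => ha.1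
    obtain ⟨a, ha, a', ha', hne⟩ := (Set.one_lt_ncard hf).1 h
    have h1 := (hs a ha.1 b hb).1 ha.2
    have h2 := (hs a' ha'.1 b hb).1 ha'.2
    rcases lt_trichotomy (key a) (key a') with h3 | h3 | h3
    · exact h1.2 a' ha'.1 ⟨h3, h2.1⟩
    · exact hne (hi a ha.1 a' ha'.1 h3)
    · exact h2.2 a ha.1 ⟨h3, h1.1⟩
  · rintro a ha ⟨b, hb, h⟩
    obtain ⟨c, hc, hmin⟩ := Finset.exists_min_image
      ((Finset.range n).filter fun c => key a < key c) key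
      ⟨b, Finset.mem_filter.2 ⟨Finset.mem_range.2 hb, (hk a ha b hb).1 h⟩⟩
    rw [Finset.mem_filter, Finset.mem_range] at hc
    refine ⟨c, hc.1, (hs a ha c hc.1).2 ⟨hc.2, ?_⟩⟩
    rintro d hd ⟨h1, h2⟩
    have := hmin d (Finset.mem_filter.2 ⟨Finset.mem_range.2 hd, h1⟩)
    omega

/-- extend a structure on `Fin n` to `ℕ` -/
theorem exists_ext {n : ℕ} (P : ℕ → Fin n → Prop) (R : ℕ → Fin n → Fin n → Prop) :
    ∃ (P' : ℕ → ℕ → Prop) (R' : ℕ → ℕ → ℕ → Prop), P = (fun i a => P' i a.val) ∧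
      R = fun i a b => R' i a.val b.val := by
  refine ⟨fun i a => ∃ h : a < n, P i ⟨a, h⟩,
    fun i a b => ∃ (ha : a < n) (hb : b < n), R i ⟨a, ha⟩ ⟨b, hb⟩, ?_, ?_⟩
  · funext i a
    exact propext ⟨fun h => ⟨a.isLt, h⟩, fun ⟨_, h⟩ => h⟩
  · funext i a b
    exact propext ⟨fun h => ⟨a.isLt, b.isLt, h⟩, fun ⟨_, _, h⟩ => h⟩

/-- the spectrum with successor relations is one with counting -/
theorem specS_eq (hCD : T_CD) (hKY : T_KY) (hSU : T_SU) : ∃ ψ : C2, ψ.BinLt 4 ∧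
    (∀ n P R (s : Bool → ℕ), (∀ w, s w < n) → (ψ.SatN n P R s ↔ SuccAx n R)) ∧
    ∀ φ n, n ∈ specS φ ↔ n ∈ specO 2 (.and φ ψ) := by
  obtain ⟨ψ, h1, h2⟩ := cd_succAx hCD
  refine ⟨ψ, h1, h2, fun φ n => ?_⟩
  constructor
  · rintro ⟨hn, P, R, o0, o1, s0, s1, hs⟩
    obtain ⟨P', R', rfl, rfl⟩ := exists_ext P R
    refine ⟨hn, _, _, ?_, fun s => ⟨hs s, ?_⟩⟩
    · intro j hj
      have : j = 0 ∨ j = 1 := by omega
      rcases this with rfl | rfl
      · exact o0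
      · exact o1
    · rw [br_sat, h2 n P' R' _ fun w => (s w).isLt]
      obtain ⟨k0, _, i0, e0⟩ := hKY n _ ((br_ord (R' 0)).1 o0)
      obtain ⟨k1, _, i1, e1⟩ := hKY n _ ((br_ord (R' 1)).1 o1)
      have t0 := (succ_iff_cov e0).1 s0
      have t1 := (succ_iff_cov e1).1 s1
      exact ⟨cov_ax i0 e0 fun a ha b hb => t0 ⟨a, ha⟩ ⟨b, hb⟩,
        cov_ax i1 e1 fun a ha b hb => t1 ⟨a, ha⟩ ⟨b, hb⟩⟩
  · rintro ⟨hn, P, R, ho, hs⟩
    obtain ⟨P', R', rfl, rfl⟩ := exists_ext P R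
    have o0 := ho 0 (by norm_num)
    have o1 := ho 1 (by norm_num)
    have h3 : SuccAx n R' := by
      have h4 := (hs fun _ => ⟨0, hn⟩).2
      rw [br_sat, h2 n P' R' _ fun _ => hn] at h4
      exact h4
    obtain ⟨⟨a1, a2, a3⟩, b1, b2, b3⟩ := h3
    obtain ⟨k0, _, i0, e0⟩ := hKY n _ ((br_ord (R' 0)).1 o0)
    obtain ⟨k1, _, i1, e1⟩ := hKY n _ ((br_ord (R' 1)).1 o1)
    have t0 := hSU n k0 (R' 2) i0 (fun a ha b hb h => (e0 a ha b hb).1 (a1 a ha b hb h)) a2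
      (fun a ha ⟨b, hb, h⟩ => a3 a ha ⟨b, hb, (e0 a ha b hb).2 h⟩)
    have t1 := hSU n k1 (R' 3) i1 (fun a ha b hb h => (e1 a ha b hb).1 (b1 a ha b hb h)) b2
      (fun a ha ⟨b, hb, h⟩ => b3 a ha ⟨b, hb, (e1 a ha b hb).2 h⟩)
    refine ⟨hn, _, _, o0, o1, (succ_iff_cov e0).2 fun a b => t0 _ a.isLt _ b.isLt,
      (succ_iff_cov e1).2 fun a b => t1 _ a.isLt _ b.isLt, fun s => (hs s).1⟩

/-- systems with two orders are given by formulas without counting -/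
theorem eb_succ (hCD : T_CD) (hKY : T_KY) (hSU : T_SU) (hB : T_B2) (hM : T_AM) :
    ∀ (Q : Type) [Finite Q] (τ : TS Q), ∃ φ : C2, φ.NoCount ∧ φ.BinLt 4 ∧
      ∀ n, n ∈ specS φ ↔ 0 < n ∧ ∃ (lab : ℕ → Q) (key : ℕ → ℕ), TSM τ n lab key := by
  intro Q _ τ
  obtain ⟨k, ⟨e⟩⟩ := Finite.exists_equiv_fin Q
  have he : Function.Injective (fun q : Q => (e q).val) :=
    fun a b hab => e.injective (Fin.ext hab)
  obtain ⟨ψ, _, g2, g3⟩ := specS_eq hCD hKY hSU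
  obtain ⟨φ, h1, h2⟩ := cdf_axF τ (fun q : Q => (e q).val)
  refine ⟨φ, h1.1, h1.2, fun n => ?_⟩
  rw [g3, hB _ n]
  refine and_congr_right fun hn => ?_
  rw [← hM Q τ _ he n hn]
  refine exists_congr fun P => exists_congr fun R => exists_congr fun key => ?_
  refine and_congr_right fun _ => and_congr_right fun _ => and_congr_right fun _ => ?_
  rw [axT_iff]
  constructor
  · intro h3
    have h4 : φ.SatN n P R (fun _ => 0) ∧ ψ.SatN n P R (fun _ => 0) := h3 _ fun _ => hn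
    exact ⟨(h2 n P R (fun _ => 0) (fun _ => hn)).1 h4.1,
      (g2 n P R (fun _ => 0) (fun _ => hn)).1 h4.2⟩
  · rintro ⟨h3, h4⟩ s hs
    exact ⟨(h2 n P R s hs).2 h3, (g2 n P R s hs).2 h4⟩

end Pool.Agent.H16.TO
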