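import Pool.Agent.H16.TO.Asm
import Pool.Agent.H16.TO.Suc

/-!
# Assembly: two orders with their successor relations, no counting
-/

set_option autoImplicit false

namespace Pool.Agent.H16.TO

open Pool.Agent.H69.Sp Pool.Agent.H69.Mt

/-- the main statement on two orders -/
def T_Q2 : Prop := ∀ S, IsSpectrum S → ∃ (φ : C2) (r : ℕ), 0 < r ∧ φ.NoCount ∧ φ.BinLt 4 ∧
  ∀ n, 0 < n → (n ∈ S ↔ 2 * r * n ^ r ∈ specS φ)

theorem pf_q2 (hCD : T_CD) (hKY : T_KY) (hSU : T_SU) (hB : T_B2) (hM : T_AM) (hTA : T_TA)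
    (hTB : T_TB) (hCA : T_CA) (hCB : T_CB) (hG : T_GT) : T_Q2 := by
  intro S hS
  obtain ⟨r, T, G, H, hr, hT, h1⟩ := hG S hS
  obtain ⟨φ, h2, h2', h3⟩ := eb_succ hCD hKY hSU hB hM (Fin (2 * r) × Cell r T) (bTS G H)
  have h3' : ∀ N, N ∈ specS φ ↔ ∃ n, Box r n ∧ N = 2 * r * wt n r ∧ Tiles r G H n := by
    intro N
    rw [h3 N]
    constructor
    · rintro ⟨hN, lab, key, h3⟩
      obtain ⟨K, hK, hNK, cl, s, h4⟩ := hTA r T G H N lab key hr hN h3
      obtain ⟨n, h5, h6, h7⟩ := hCA r T G H K cl s hK h4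
      exact ⟨n, h5, by rw [hNK, h6], h7⟩
    · rintro ⟨n, h5, h6, h7⟩
      obtain ⟨cl, s, h8⟩ := hCB r T G H n h5 h7
      have hK : 0 < wt n r := Finset.prod_pos fun i _ => h5.1 i
      obtain ⟨lab, key, h9⟩ := hTB r T G H (wt n r) cl s hr hK h8
      refine ⟨by rw [h6]; positivity, lab, key, by rw [h6]; exact h9⟩
  refine ⟨φ, r, hr, h2, h2', fun n hn => ?_⟩
  rw [h3']
  have hw : ∀ (n' : ℕ → ℕ) (m : ℕ), (∀ i < r, n' i = m) → wt n' r = m ^ r := by
    intro n' m h4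
    unfold wt
    rw [Finset.prod_congr rfl fun i hi => h4 i (Finset.mem_range.1 hi), Finset.prod_const,
      Finset.card_range]
  constructor
  · intro h4
    set n' : ℕ → ℕ := fun i => if i < r then n else 1 with hn'
    have h5 : Box r n' := by
      refine ⟨fun i => ?_, fun i hi => ?_⟩
      · rw [hn']; dsimp only; split_ifs <;> omega
      · rw [hn']; dsimp only; rw [if_neg (by omega)]
    have h6 : ∀ i < r, n' i = n := fun i hi => by rw [hn']; dsimp only; rw [if_pos hi]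
    exact ⟨n', h5, by rw [hw n' n h6], (h1 n' h5).2 ⟨n, h4, h6⟩⟩
  · rintro ⟨n', h5, h6, h7⟩
    obtain ⟨m, h8, h9⟩ := (h1 n' h5).1 h7
    rw [hw n' m h9] at h6
    have h10 : n ^ r = m ^ r := Nat.eq_of_mul_eq_mul_left (by omega) h6
    have h11 : n = m := Nat.pow_left_injective (by omega) h10
    rwa [h11]

/-- the three equivalent forms -/
theorem pf_q3 (h2 : T_Q2) (hS : T_S1) (hP : T_PB) (hCD : T_CD) (hKY : T_KY) (hSU : T_SU) :
    [∀ S, IsSpectrum S → IsSpectrum (posCompl S),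
      ∀ φ : C2, φ.NoCount → φ.BinLt 4 → IsSpectrum (posCompl (specS φ)),
      ∀ φ : C2, φ.BinLt 4 → IsSpectrum (posCompl (specO 2 φ))].TFAE := by
  tfae_have 1 → 3 := fun h φ _ => h _ (hS 2 φ)
  tfae_have 3 → 2 := by
    intro h φ _ hφ
    obtain ⟨ψ, g1, _, g3⟩ := specS_eq hCD hKY hSU
    have e : specS φ = specO 2 (.and φ ψ) := Set.ext fun n => g3 φ n
    rw [e]
    exact h _ ⟨hφ, g1⟩
  tfae_have 2 → 1 := by
    intro h S hS'
    obtain ⟨φ, r, hr, h3, h3', h4⟩ := h2 S hS'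
    have h5 := hP _ (h φ h3 h3') (2 * r) r (by omega) hr
    convert h5 using 1
    ext n
    unfold posCompl
    simp only [Set.mem_ofPred_eq]
    refine and_congr_right fun hn => ?_
    rw [h4 n hn]
    constructor
    · intro h6
      exact ⟨by positivity, h6⟩
    · intro h6
      exact h6.2
  tfae_finish

end Pool.Agent.H16.TO
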