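import Pool.Agent.H16.TO.Defs

/-!
# Two-variable logic without counting over two linear orders with their successor relations
-/

set_option autoImplicit false

namespace Pool.Agent.H16.TO

/-- The formula does not count beyond one: `cnt 1 v φ` says that some `v` satisfies `φ`. -/
def C2.NoCount : C2 → Prop
  | .un _ _ => True
  | .bi _ _ _ => True
  | .eq _ _ => True
  | .neg φ => φ.NoCount
  | .and φ ψ => φ.NoCount ∧ ψ.NoCount
  | .cnt k _ φ => k ≤ 1 ∧ φ.NoCount

/-- `s` is the successor relation of the strict linear order `r`. -/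
def IsSucc {A : Type} (r s : A → A → Prop) : Prop :=
  ∀ a b, s a b ↔ r a b ∧ ∀ c, ¬ (r a c ∧ r c b)

/-- The sizes of the finite (nonempty) models of `φ` in which `R 0` and `R 1` are strict linear
orders and `R 2` and `R 3` are their successor relations. -/
def specS (φ : C2) : Set ℕ :=
  {n | 0 < n ∧ ∃ (P : ℕ → Fin n → Prop) (R : ℕ → Fin n → Fin n → Prop),
    IsStrictTotalOrder (Fin n) (R 0) ∧ IsStrictTotalOrder (Fin n) (R 1) ∧
    IsSucc (R 0) (R 2) ∧ IsSucc (R 1) (R 3) ∧ ∀ s : Bool → Fin n, φ.Sat P R s}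

end Pool.Agent.H16.TO
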