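import Pool.Agent.H16.TO.Targets
import Pool.Agent.H16.TO.Defs2

/-!
# Definability in two-variable logic without counting
-/

set_option autoImplicit false

namespace Pool.Agent.H16.TO

/-- definable without counting, with the binary relations `R 0, …, R 3` -/
def CDF (F : Pd2) : Prop := ∃ φ : C2, (φ.NoCount ∧ φ.BinLt 4) ∧ ∀ n P R (s : Bool → ℕ),
  (∀ w, s w < n) → (φ.SatN n P R s ↔ F n P R (s false) (s true))

theorem cdf_congr {F F' : Pd2} (h : CDF F) (he : ∀ n P R x y, x < n → y < n →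
    (F n P R x y ↔ F' n P R x y)) : CDF F' := by
  obtain ⟨φ, hb, hφ⟩ := h
  refine ⟨φ, hb, fun n P R s hs => ?_⟩
  rw [hφ n P R s hs]
  exact he n P R _ _ (hs false) (hs true)

theorem cdf_not {F : Pd2} (h : CDF F) : CDF (fun n P R x y => ¬ F n P R x y) := by
  obtain ⟨φ, hb, hφ⟩ := h
  refine ⟨.neg φ, hb, fun n P R s hs => ?_⟩
  show ¬ φ.SatN n P R s ↔ _
  rw [hφ n P R s hs]

theorem cdf_and {F F' : Pd2} (h : CDF F) (h' : CDF F') :
    CDF (fun n P R x y => F n P R x y ∧ F' n P R x y) := by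
  obtain ⟨φ, hb, hφ⟩ := h
  obtain ⟨ψ, hb', hψ⟩ := h'
  refine ⟨.and φ ψ, ⟨⟨hb.1, hb'.1⟩, hb.2, hb'.2⟩, fun n P R s hs => ?_⟩
  show φ.SatN n P R s ∧ ψ.SatN n P R s ↔ _
  rw [hφ n P R s hs, hψ n P R s hs]

theorem cdf_or {F F' : Pd2} (h : CDF F) (h' : CDF F') :
    CDF (fun n P R x y => F n P R x y ∨ F' n P R x y) := by
  refine cdf_congr (cdf_not (cdf_and (cdf_not h) (cdf_not h'))) ?_
  intro n P R x y _ _
  tauto

theorem cdf_imp {F F' : Pd2} (h : CDF F) (h' : CDF F') :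
    CDF (fun n P R x y => F n P R x y → F' n P R x y) := by
  refine cdf_congr (cdf_or (cdf_not h) h') ?_
  intro n P R x y _ _
  tauto

theorem cdf_const (p : Prop) : CDF (fun _ _ _ _ _ => p) := by
  by_cases hp : p
  · refine ⟨.eq false false, ⟨trivial, trivial⟩, fun n P R s hs => ?_⟩
    show s false = s false ↔ p
    simp [hp]
  · refine ⟨.neg (.eq false false), ⟨trivial, trivial⟩, fun n P R s hs => ?_⟩
    show ¬ (s false = s false) ↔ p
    simp [hp]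

theorem one_le_ncard_iff' (n : ℕ) (Q : ℕ → Prop) :
    1 ≤ {a | a < n ∧ Q a}.ncard ↔ ∃ a < n, Q a := by
  have hf : {a | a < n ∧ Q a}.Finite := (Set.finite_lt_nat n).subset fun a ha => ha.1
  rw [Nat.one_le_iff_ne_zero, ← Nat.pos_iff_ne_zero, Set.ncard_pos hf]
  exact Iff.rfl

theorem cdf_exF {F : Pd2} (h : CDF F) : CDF (fun n P R _ y => ∃ a < n, F n P R a y) := by
  obtain ⟨φ, hb, hφ⟩ := h
  refine ⟨.cnt 1 false φ, ⟨⟨le_refl 1, hb.1⟩, hb.2⟩, fun n P R s hs => ?_⟩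
  show 1 ≤ {a | a < n ∧ φ.SatN n P R (Function.update s false a)}.ncard ↔
    ∃ a < n, F n P R a (s true)
  rw [one_le_ncard_iff' n fun a => φ.SatN n P R (Function.update s false a)]
  refine exists_congr fun a => and_congr_right fun ha => ?_
  have hs' : ∀ w, Function.update s false a w < n := by
    intro w
    cases w
    · simpa using ha
    · simpa using hs true
  rw [hφ n P R _ hs']
  simp

theorem cdf_exT {F : Pd2} (h : CDF F) : CDF (fun n P R x _ => ∃ b < n, F n P R x b) := by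
  obtain ⟨φ, hb, hφ⟩ := h
  refine ⟨.cnt 1 true φ, ⟨⟨le_refl 1, hb.1⟩, hb.2⟩, fun n P R s hs => ?_⟩
  show 1 ≤ {a | a < n ∧ φ.SatN n P R (Function.update s true a)}.ncard ↔
    ∃ b < n, F n P R (s false) b
  rw [one_le_ncard_iff' n fun a => φ.SatN n P R (Function.update s true a)]
  refine exists_congr fun a => and_congr_right fun ha => ?_
  have hs' : ∀ w, Function.update s true a w < n := by
    intro w
    cases w
    · simpa using hs false
    · simpa using ha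
  rw [hφ n P R _ hs']
  simp

theorem cdf_allF {F : Pd2} (h : CDF F) : CDF (fun n P R _ y => ∀ a < n, F n P R a y) := by
  refine cdf_congr (cdf_not (cdf_exF (cdf_not h))) ?_
  intro n P R x y _ _
  push Not
  exact Iff.rfl

theorem cdf_allT {F : Pd2} (h : CDF F) : CDF (fun n P R x _ => ∀ b < n, F n P R x b) := by
  refine cdf_congr (cdf_not (cdf_exT (cdf_not h))) ?_
  intro n P R x y _ _
  push Not
  exact Iff.rfl

theorem cdf_allFin (k : ℕ) (F : Fin k → Pd2) (h : ∀ i, CDF (F i)) :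
    CDF (fun n P R x y => ∀ i, F i n P R x y) := by
  induction k with
  | zero =>
    refine cdf_congr (cdf_const True) ?_
    intro n P R x y _ _
    simp
  | succ k ih =>
    refine cdf_congr (cdf_and (h 0) (ih (fun i => F i.succ) fun i => h i.succ)) ?_
    intro n P R x y _ _
    exact (Fin.forall_fin_succ (P := fun i => F i n P R x y)).symm

theorem cdf_allFinite (ι : Type) [Finite ι] (F : ι → Pd2) (h : ∀ i, CDF (F i)) :
    CDF (fun n P R x y => ∀ i, F i n P R x y) := by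
  obtain ⟨k, ⟨e⟩⟩ := Finite.exists_equiv_fin ι
  refine cdf_congr (cdf_allFin k (fun i => F (e.symm i)) fun i => h _) ?_
  intro n P R x y _ _
  refine ⟨fun hh i => ?_, fun hh i => hh _⟩
  have := hh (e i)
  rwa [e.symm_apply_apply] at this

theorem cdf_exFinite (ι : Type) [Finite ι] (F : ι → Pd2) (h : ∀ i, CDF (F i)) :
    CDF (fun n P R x y => ∃ i, F i n P R x y) := by
  refine cdf_congr (cdf_not (cdf_allFinite ι (fun i n P R x y => ¬ F i n P R x y)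
    fun i => cdf_not (h i))) ?_
  intro n P R x y _ _
  push Not
  exact Iff.rfl

theorem cdf_P (i : ℕ) : CDF (fun _ P _ x _ => P i x) ∧ CDF (fun _ P _ _ y => P i y) :=
  ⟨⟨.un i false, ⟨trivial, trivial⟩, fun _ _ _ _ _ => Iff.rfl⟩,
    ⟨.un i true, ⟨trivial, trivial⟩, fun _ _ _ _ _ => Iff.rfl⟩⟩

theorem cdf_R {i : ℕ} (hi : i < 4) : CDF (fun _ _ R x y => R i x y) :=
  ⟨.bi i false true, ⟨trivial, hi⟩, fun _ _ _ _ _ => Iff.rfl⟩

/-- the axioms of a system without the axioms for the successor relations -/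
def AxF {Q : Type} (τ : TS Q) (enc : Q → ℕ) (n : ℕ) (P : ℕ → ℕ → Prop) (R : ℕ → ℕ → ℕ → Prop) :
    Prop :=
  (∀ a < n, ∃ q, LabAt enc P q a ∧ τ.U q) ∧
  (∀ b < n, (∃ a < n, R 0 a b) ∨ ∃ q, LabAt enc P q b ∧ τ.F1 q) ∧
  (∀ a < n, (∃ b < n, R 0 a b) ∨ ∃ q, LabAt enc P q a ∧ τ.L1 q) ∧
  (∀ a < n, ∀ b < n, R 2 a b → ∃ q, ∃ q', (LabAt enc P q a ∧ LabAt enc P q' b) ∧ τ.C1 q q') ∧
  (∀ b < n, (∃ a < n, R 1 a b) ∨ ∃ q, LabAt enc P q b ∧ τ.F2 q) ∧
  (∀ a < n, (∃ b < n, R 1 a b) ∨ ∃ q, LabAt enc P q a ∧ τ.L2 q) ∧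
  (∀ a < n, ∀ b < n, R 3 a b → ∃ q, ∃ q', (LabAt enc P q a ∧ LabAt enc P q' b) ∧ τ.C2 q q') ∧
  ∀ a < n, ∀ b < n, R 0 a b →
    (∃ q, ∃ q', (LabAt enc P q a ∧ LabAt enc P q' b) ∧ τ.Ag q q') → R 1 a b

/-- the axioms for the successor relations -/
def SuccAx (n : ℕ) (R : ℕ → ℕ → ℕ → Prop) : Prop :=
  ((∀ a < n, ∀ b < n, R 2 a b → R 0 a b) ∧ (∀ b < n, ¬ 2 ≤ {a | a < n ∧ R 2 a b}.ncard) ∧
    (∀ a < n, (∃ b < n, R 0 a b) → ∃ b < n, R 2 a b)) ∧
  (∀ a < n, ∀ b < n, R 3 a b → R 1 a b) ∧ (∀ b < n, ¬ 2 ≤ {a | a < n ∧ R 3 a b}.ncard) ∧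
    (∀ a < n, (∃ b < n, R 1 a b) → ∃ b < n, R 3 a b)

theorem axT_iff {Q : Type} (τ : TS Q) (enc : Q → ℕ) (n : ℕ) (P : ℕ → ℕ → Prop)
    (R : ℕ → ℕ → ℕ → Prop) : AxT τ enc n P R ↔ AxF τ enc n P R ∧ SuccAx n R := by
  unfold AxT AxF SuccAx
  tauto

theorem cdf_axF {Q : Type} [Finite Q] (τ : TS Q) (enc : Q → ℕ) :
    CDF (fun n P R _ _ => AxF τ enc n P R) := by
  have lx : ∀ q, CDF (fun _ P _ x _ => LabAt enc P q x) := fun q =>
    cdf_and (cdf_P (enc q)).1 (cdf_allFinite Q _ fun q' => cdf_imp (cdf_const (q' ≠ q))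
      (cdf_not (cdf_P (enc q')).1))
  have ly : ∀ q, CDF (fun _ P _ _ y => LabAt enc P q y) := fun q =>
    cdf_and (cdf_P (enc q)).2 (cdf_allFinite Q _ fun q' => cdf_imp (cdf_const (q' ≠ q))
      (cdf_not (cdf_P (enc q')).2))
  have ex1 : ∀ U : Q → Prop, CDF (fun _ P _ x _ => ∃ q, LabAt enc P q x ∧ U q) := fun U =>
    cdf_exFinite Q _ fun q => cdf_and (lx q) (cdf_const (U q))
  have ey1 : ∀ U : Q → Prop, CDF (fun _ P _ _ y => ∃ q, LabAt enc P q y ∧ U q) := fun U =>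
    cdf_exFinite Q _ fun q => cdf_and (ly q) (cdf_const (U q))
  have e2 : ∀ C : Q → Q → Prop, CDF (fun _ P _ x y =>
      ∃ q, ∃ q', (LabAt enc P q x ∧ LabAt enc P q' y) ∧ C q q') := fun C =>
    cdf_exFinite Q _ fun q => cdf_exFinite Q _ fun q' =>
      cdf_and (cdf_and (lx q) (ly q')) (cdf_const (C q q'))
  have h1 : CDF (fun n P _ _ _ => ∀ a < n, ∃ q, LabAt enc P q a ∧ τ.U q) :=
    cdf_allF (F := fun _ P _ x _ => ∃ q, LabAt enc P q x ∧ τ.U q) (ex1 τ.U)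
  have hsx : ∀ i < 4, CDF (fun n _ R x _ => ∃ b < n, R i x b) := fun i hi =>
    cdf_exT (F := fun _ _ R x y => R i x y) (cdf_R hi)
  have hpy : ∀ i < 4, CDF (fun n _ R _ y => ∃ a < n, R i a y) := fun i hi =>
    cdf_exF (F := fun _ _ R x y => R i x y) (cdf_R hi)
  have hfi : ∀ i < 4, ∀ U : Q → Prop, CDF (fun n P R _ _ =>
      ∀ b < n, (∃ a < n, R i a b) ∨ ∃ q, LabAt enc P q b ∧ U q) := fun i hi U =>
    cdf_allT (F := fun n P R _ y => (∃ a < n, R i a y) ∨ ∃ q, LabAt enc P q y ∧ U q)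
      (cdf_or (hpy i hi) (ey1 U))
  have hla : ∀ i < 4, ∀ U : Q → Prop, CDF (fun n P R _ _ =>
      ∀ a < n, (∃ b < n, R i a b) ∨ ∃ q, LabAt enc P q a ∧ U q) := fun i hi U =>
    cdf_allF (F := fun n P R x _ => (∃ b < n, R i x b) ∨ ∃ q, LabAt enc P q x ∧ U q)
      (cdf_or (hsx i hi) (ex1 U))
  have hst : ∀ i < 4, ∀ C : Q → Q → Prop, CDF (fun n P R _ _ =>
      ∀ a < n, ∀ b < n, R i a b → ∃ q, ∃ q', (LabAt enc P q a ∧ LabAt enc P q' b) ∧ C q q') :=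
    fun i hi C => cdf_allF (F := fun n P R x _ => ∀ b < n, R i x b →
        ∃ q, ∃ q', (LabAt enc P q x ∧ LabAt enc P q' b) ∧ C q q')
      (cdf_allT (F := fun _ P R x y => R i x y →
        ∃ q, ∃ q', (LabAt enc P q x ∧ LabAt enc P q' y) ∧ C q q') (cdf_imp (cdf_R hi) (e2 C)))
  have hag : CDF (fun n P R _ _ => ∀ a < n, ∀ b < n, R 0 a b →
      (∃ q, ∃ q', (LabAt enc P q a ∧ LabAt enc P q' b) ∧ τ.Ag q q') → R 1 a b) :=
    cdf_allF (F := fun n P R x _ => ∀ b < n, R 0 x b →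
        (∃ q, ∃ q', (LabAt enc P q x ∧ LabAt enc P q' b) ∧ τ.Ag q q') → R 1 x b)
      (cdf_allT (F := fun _ P R x y => R 0 x y →
        (∃ q, ∃ q', (LabAt enc P q x ∧ LabAt enc P q' y) ∧ τ.Ag q q') → R 1 x y)
        (cdf_imp (cdf_R (by norm_num)) (cdf_imp (e2 τ.Ag) (cdf_R (by norm_num)))))
  exact cdf_and h1 (cdf_and (hfi 0 (by norm_num) τ.F1) (cdf_and (hla 0 (by norm_num) τ.L1)
    (cdf_and (hst 2 (by norm_num) τ.C1) (cdf_and (hfi 1 (by norm_num) τ.F2)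
    (cdf_and (hla 1 (by norm_num) τ.L2) (cdf_and (hst 3 (by norm_num) τ.C2) hag))))))

end Pool.Agent.H16.TO
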