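import Pool.Agent.H69.Sp.Model

/-!
# Two-variable logic with counting over linear orders
-/

set_option autoImplicit false

namespace Pool.Agent.H16.TO

/-- Formulas of two-variable logic with counting: the variables are `false` and `true`, the relation
symbols are indexed by numbers. -/
inductive C2 : Type
  | un (i : ℕ) (v : Bool) : C2
  | bi (i : ℕ) (v w : Bool) : C2
  | eq (v w : Bool) : C2
  | neg (φ : C2) : C2
  | and (φ ψ : C2) : C2
  | cnt (k : ℕ) (v : Bool) (φ : C2) : C2

/-- Satisfaction in the structure with the unary relations `P i` and the binary relations `R i`;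
`cnt k v φ` says that at least `k` values of the variable `v` satisfy `φ`. -/
def C2.Sat {A : Type} (P : ℕ → A → Prop) (R : ℕ → A → A → Prop) : C2 → (Bool → A) → Prop
  | .un i v, s => P i (s v)
  | .bi i v w, s => R i (s v) (s w)
  | .eq v w, s => s v = s w
  | .neg φ, s => ¬ φ.Sat P R s
  | .and φ ψ, s => φ.Sat P R s ∧ ψ.Sat P R s
  | .cnt k v φ, s => k ≤ {a | φ.Sat P R (Function.update s v a)}.ncard

/-- Only the binary relations `R i` with `i < m` occur. -/
def C2.BinLt (m : ℕ) : C2 → Prop
  | .un _ _ => True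
  | .bi i _ _ => i < m
  | .eq _ _ => True
  | .neg φ => φ.BinLt m
  | .and φ ψ => φ.BinLt m ∧ ψ.BinLt m
  | .cnt _ _ φ => φ.BinLt m

/-- The sizes of the finite (nonempty) models of `φ` in which the binary relations `R j`, `j < l`,
are strict linear orders. -/
def specO (l : ℕ) (φ : C2) : Set ℕ :=
  {n | 0 < n ∧ ∃ (P : ℕ → Fin n → Prop) (R : ℕ → Fin n → Fin n → Prop),
    (∀ j < l, IsStrictTotalOrder (Fin n) (R j)) ∧ ∀ s : Bool → Fin n, φ.Sat P R s}

end Pool.Agent.H16.TO
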