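import Pool.Agent.H16.TO.Defs
import Pool.Agent.H69.Mt.Pw
import Pool.Agent.H69.Sp.Per

/-!
# Two-variable logic with counting over linear orders: auxiliary definitions
-/

set_option autoImplicit false

namespace Pool.Agent.H16.TO

open Pool.Agent.H69.Sp Pool.Agent.H69.Mt

/-! ### satisfaction on initial segments of `ℕ` -/

/-- satisfaction in the universe `{0, …, n - 1}` -/
def C2.SatN (n : ℕ) (P : ℕ → ℕ → Prop) (R : ℕ → ℕ → ℕ → Prop) : C2 → (Bool → ℕ) → Prop
  | .un i v, s => P i (s v)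
  | .bi i v w, s => R i (s v) (s w)
  | .eq v w, s => s v = s w
  | .neg φ, s => ¬ φ.SatN n P R s
  | .and φ ψ, s => φ.SatN n P R s ∧ ψ.SatN n P R s
  | .cnt k v φ, s => k ≤ {a | a < n ∧ φ.SatN n P R (Function.update s v a)}.ncard

/-- strict linear orders on `{0, …, n - 1}` -/
def STOn (n : ℕ) (r : ℕ → ℕ → Prop) : Prop :=
  (∀ a < n, ¬ r a a) ∧ (∀ a < n, ∀ b < n, ∀ c < n, r a b → r b c → r a c) ∧
    ∀ a < n, ∀ b < n, a ≠ b → r a b ∨ r b a

/-- the universally closed formula -/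
def C2.clo (φ : C2) : C2 := .neg (.cnt 1 false (.cnt 1 true (.neg φ)))

/-- a bound for the indices of the relation symbols -/
def C2.bd : C2 → ℕ
  | .un i _ => i + 1
  | .bi i _ _ => i + 1
  | .eq _ _ => 0
  | .neg φ => φ.bd
  | .and φ ψ => max φ.bd ψ.bd
  | .cnt _ _ φ => φ.bd

/-- a bound for the thresholds -/
def C2.th : C2 → ℕ
  | .un _ _ => 0
  | .bi _ _ _ => 0
  | .eq _ _ => 0
  | .neg φ => φ.th
  | .and φ ψ => max φ.th ψ.th
  | .cnt k _ φ => max k φ.th

/-! ### truth bits for the counting subformulas -/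

/-- the bits of the counting subformulas -/
def C2.Bt : C2 → Type
  | .un _ _ => Unit
  | .bi _ _ _ => Unit
  | .eq _ _ => Unit
  | .neg φ => φ.Bt
  | .and φ ψ => φ.Bt × ψ.Bt
  | .cnt _ _ φ => Bool × φ.Bt

/-- evaluation: `U`, `W`, `e` are the truth values of the atoms, `g v` are the bits of the value of the
variable `v` -/
def C2.ev : (φ : C2) → (ℕ → Bool → Prop) → (ℕ → Bool → Bool → Prop) → (Bool → Bool → Prop) →
    (Bool → φ.Bt) → Prop
  | .un i v, U, _, _, _ => U i v
  | .bi i v w, _, W, _, _ => W i v w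
  | .eq v w, _, _, e, _ => e v w
  | .neg φ, U, W, e, g => ¬ φ.ev U W e g
  | .and φ ψ, U, W, e, g => φ.ev U W e (fun v => (g v).1) ∧ ψ.ev U W e (fun v => (g v).2)
  | .cnt _ v _, _, _, _, g => (g (!v)).1 = true

/-- evaluation at a pair of elements -/
def C2.evA (φ : C2) (P : ℕ → ℕ → Prop) (R : ℕ → ℕ → ℕ → Prop) (g : ℕ → φ.Bt) (s : Bool → ℕ) : Prop :=
  φ.ev (fun i v => P i (s v)) (fun i v w => R i (s v) (s w)) (fun v w => s v = s w)
    (fun v => g (s v))

/-- the bits are correct -/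
def C2.Good (n : ℕ) (P : ℕ → ℕ → Prop) (R : ℕ → ℕ → ℕ → Prop) : (φ : C2) → (ℕ → φ.Bt) → Prop
  | .un _ _, _ => True
  | .bi _ _ _, _ => True
  | .eq _ _, _ => True
  | .neg φ, g => φ.Good n P R g
  | .and φ ψ, g => φ.Good n P R (fun a => (g a).1) ∧ ψ.Good n P R (fun a => (g a).2)
  | .cnt k v φ, g => φ.Good n P R (fun a => (g a).2) ∧ ∀ a < n, ((g a).1 = true ↔
      k ≤ {b | b < n ∧ φ.evA P R (fun c => (g c).2) (fun x => if x = v then b else a)}.ncard)

/-! ### one-order systems -/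

section
variable {Λ Θ : Type} [Fintype Λ] [Fintype Θ] [DecidableEq Λ] [DecidableEq Θ]

/-- the number of the earlier partners of `a` with label `p.1` and type `p.2` -/
def Lc (lam : ℕ → Λ) (th : ℕ → ℕ → Θ) (a : ℕ) (p : Λ × Θ) : ℕ :=
  ((Finset.range a).filter fun b => lam b = p.1 ∧ th b a = p.2).card

/-- the number of the later partners of `a` below `t` with label `p.1` and type `p.2` -/
def Rc (lam : ℕ → Λ) (th : ℕ → ℕ → Θ) (a t : ℕ) (p : Λ × Θ) : ℕ :=
  ((Finset.Ico (a + 1) t).filter fun b => lam b = p.1 ∧ th a b = p.2).card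

/-- the number `x`, capped -/
def capn (K x : ℕ) : Fin (K + 1) := ⟨min K x, by omega⟩

/-- `n` is the size of a model of the one-order system -/
def OneSys (K : ℕ) (Ok : Λ → (Λ × Θ → Fin (K + 1)) → (Λ × Θ → Fin (K + 1)) → Prop) (n : ℕ) : Prop :=
  ∃ (lam : ℕ → Λ) (th : ℕ → ℕ → Θ), ∀ a < n,
    Ok (lam a) (fun p => capn K (Lc lam th a p)) (fun p => capn K (Rc lam th a n p))

/-- the states of the elements: label, earlier partners, later partners up to now -/
abbrev St (Λ Θ : Type) (K : ℕ) : Type := Λ × (Λ × Θ → Fin (K + 1)) × (Λ × Θ → Fin (K + 1))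

/-- the new state after a new element of label `b` to which the type is `t` -/
def upd {K : ℕ} (σ : St Λ Θ K) (b : Λ) (t : Θ) : St Λ Θ K :=
  (σ.1, σ.2.1, Function.update σ.2.2 (b, t) (capn K ((σ.2.2 (b, t)).val + 1)))

/-- the state of the new element -/
def newSt {K : ℕ} (b : Λ) (m : St Λ Θ K × Θ → ℕ) : St Λ Θ K :=
  (b, fun p => capn K (∑ σ with σ.1 = p.1, m (σ, p.2)), fun _ => capn K 0)

/-- one step: a new element of label `b`, `m (σ, t)` elements of state `σ` get the type `t` -/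
def Step {K : ℕ} (c : St Λ Θ K → ℕ) (b : Λ) (m : St Λ Θ K × Θ → ℕ) (c' : St Λ Θ K → ℕ) : Prop :=
  (∀ σ, ∑ t, m (σ, t) = c σ) ∧
    ∀ σ', c' σ' = (∑ p with upd p.1 b p.2 = σ', m p) + if σ' = newSt b m then 1 else 0

/-- the configurations which are reachable in `t` steps -/
def Reach {K : ℕ} : ℕ → (St Λ Θ K → ℕ) → Prop
  | 0, c => c = 0
  | t + 1, c' => ∃ c b m, Reach t c ∧ Step c b m c'

/-- the state is acceptable -/
def OkSt {K : ℕ} (Ok : Λ → (Λ × Θ → Fin (K + 1)) → (Λ × Θ → Fin (K + 1)) → Prop)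
    (σ : St Λ Θ K) : Prop := Ok σ.1 σ.2.1 σ.2.2

/-- the state of `a` at time `t` -/
def stt (K : ℕ) (lam : ℕ → Λ) (th : ℕ → ℕ → Θ) (t a : ℕ) : St Λ Θ K :=
  (lam a, fun p => capn K (Lc lam th a p), fun p => capn K (Rc lam th a t p))

/-- the configuration at time `t` -/
def conf (K : ℕ) (lam : ℕ → Λ) (th : ℕ → ℕ → Θ) (t : ℕ) : St Λ Θ K → ℕ := fun σ =>
  ((Finset.range t).filter fun a => stt K lam th t a = σ).card

end

/-! ### the one-order system of a formula -/

section
variable {B : ℕ} {X : Type}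

/-- labels: unary relations, loops, bits -/
abbrev Lab (B : ℕ) (X : Type) : Type := (Fin B → Bool) × (Fin B → Bool) × X

/-- types of pairs `a < b`: the relations from `a` to `b`, the relations from `b` to `a` -/
abbrev Ty (B : ℕ) : Type := (Fin B → Bool) × (Fin B → Bool)

/-- the unary relations of a labelling -/
def PfL (lam : ℕ → Lab B X) (i a : ℕ) : Prop := ∃ h : i < B, (lam a).1 ⟨i, h⟩ = true

/-- the binary relations of a labelling -/
def RfL (lam : ℕ → Lab B X) (th : ℕ → ℕ → Ty B) (i a b : ℕ) : Prop :=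
  if i = 0 then a < b else ∃ h : i < B, (if a = b then (lam a).2.1 ⟨i, h⟩ else
    if a < b then (th a b).1 ⟨i, h⟩ else (th b a).2 ⟨i, h⟩) = true

/-- evaluation in the structure with the two elements `0`, `1` with the labels `a`, `b` and the type
`t` -/
def ev2 (φ : C2) (π : X → φ.Bt) (a b : Lab B X) (t : Ty B) (s : Bool → ℕ) : Prop :=
  φ.evA (PfL (fun c => if c = 0 then a else b)) (RfL (fun c => if c = 0 then a else b) fun _ _ => t)
    (fun c => π (if c = 0 then a else b).2.2) s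

open Classical in
/-- the local form of `C2.Good` -/
noncomputable def OkF [Fintype X] (K : ℕ) : (φ : C2) → (X → φ.Bt) → Lab B X →
    (Lab B X × Ty B → Fin (K + 1)) → (Lab B X × Ty B → Fin (K + 1)) → Prop
  | .un _ _, _, _, _, _ => True
  | .bi _ _ _, _, _, _, _ => True
  | .eq _ _, _, _, _, _ => True
  | .neg φ, π, a, l, r => OkF K φ π a l r
  | .and φ ψ, π, a, l, r => OkF K φ (fun x => (π x).1) a l r ∧ OkF K ψ (fun x => (π x).2) a l r
  | .cnt k v φ, π, a, l, r => OkF K φ (fun x => (π x).2) a l r ∧ ((π a.2.2).1 = true ↔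
      k ≤ (∑ p with ev2 φ (fun x => (π x).2) p.1 a p.2 (fun x => if x = v then 0 else 1), (l p).val) +
        (if ev2 φ (fun x => (π x).2) a a (fun _ => false, fun _ => false) (fun _ => 0) then 1 else 0) +
        ∑ p with ev2 φ (fun x => (π x).2) a p.1 p.2 (fun x => if x = v then 1 else 0), (r p).val)

end

/-- replace the variables `b, …, b + k - 1` by the values `f 0, …, f (k - 1)` -/
def updN (v : ℕ → ℕ) (b k : ℕ) (f : ℕ → ℕ) : ℕ → ℕ := fun x =>
  if b ≤ x ∧ x < b + k then f (x - b) else v x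

/-! ### tilings of boxes -/

/-- `f` is a tiling of the box `{x | ∀ i, x i < n i}`: `G` is the condition for one cell, `H j` the
condition for neighbours in direction `j` -/
def TileF {T : Type} (r : ℕ) (G : (ℕ → Bool) → (ℕ → Bool) → T → Prop) (H : ℕ → T → T → Prop)
    (n : ℕ → ℕ) (f : (ℕ → ℕ) → T) : Prop :=
  ∀ x : ℕ → ℕ, (∀ i, x i < n i) →
    G (fun i => decide (x i = 0)) (fun i => decide (x i + 1 = n i)) (f x) ∧
    ∀ j < r, x j + 1 < n j → H j (f x) (f (Function.update x j (x j + 1)))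

/-- the box has a tiling -/
def Tiles {T : Type} (r : ℕ) (G : (ℕ → Bool) → (ℕ → Bool) → T → Prop) (H : ℕ → T → T → Prop)
    (n : ℕ → ℕ) : Prop := ∃ f, TileF r G H n f

/-- `n` describes a box of dimension `r` -/
def Box (r : ℕ) (n : ℕ → ℕ) : Prop := (∀ i, 0 < n i) ∧ ∀ i, r ≤ i → n i = 1

/-! ### cells in a row -/

/-- the label of a cell: four families of flags (`0`: one of the first `s j` cells, `1`: one of the last
`s j` cells, `2`: coordinate `j` is zero, `3`: coordinate `j` is maximal) and the tile -/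
abbrev Cell (r : ℕ) (T : Type) : Type := (Fin 4 → Fin r → Bool) × T

section
variable {r : ℕ} {T : Type}

/-- the flags -/
def fl (c : Cell r T) (k : Fin 4) (j : ℕ) : Bool := if h : j < r then c.1 k ⟨j, h⟩ else true

/-- the carry into coordinate `j` -/
def carry (c : Cell r T) (j : ℕ) : Prop := ∀ i < j, fl c 3 i = true

def CellFirst (c : Cell r T) : Prop := ∀ j < r, fl c 0 j = true ∧ fl c 2 j = true

def CellLast (c : Cell r T) : Prop := ∀ j < r, fl c 3 j = true

def CellG (G : (ℕ → Bool) → (ℕ → Bool) → T → Prop) (c : Cell r T) : Prop :=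
  G (fun i => fl c 2 i) (fun i => fl c 3 i) c.2

def CellStep (c c' : Cell r T) : Prop :=
  ¬ carry c r ∧ ∀ j < r, (fl c' 0 j = true ↔ (fl c 0 j = true ∧ ¬ carry c j)) ∧
    (fl c 1 j = true → fl c' 1 j = true) ∧
    (¬ carry c j → fl c' 2 j = fl c 2 j ∧ fl c' 3 j = fl c 3 j) ∧
    (carry c j → fl c' 2 j = fl c 3 j)

def Link (H : ℕ → T → T → Prop) (j : ℕ) (c c' : Cell r T) : Prop :=
  (∀ i < j, fl c' 2 i = fl c 2 i ∧ fl c' 3 i = fl c 3 i) ∧ (fl c 3 j = false → H j c.2 c'.2)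

/-- `K` cells in a row; `s j` is the stride of direction `j` -/
def CellSys (G : (ℕ → Bool) → (ℕ → Bool) → T → Prop) (H : ℕ → T → T → Prop) (K : ℕ)
    (cl : ℕ → Cell r T) (s : ℕ → ℕ) : Prop :=
  CellFirst (cl 0) ∧ CellLast (cl (K - 1)) ∧ (∀ k < K, CellG G (cl k)) ∧
    (∀ k, k + 1 < K → CellStep (cl k) (cl (k + 1))) ∧
    (∀ j < r, s j ≤ K ∧ ∀ k < K, (fl (cl k) 0 j = true ↔ k < s j)) ∧
    (∀ j < r, ∀ k < K, (fl (cl k) 1 j = true ↔ K - s j ≤ k)) ∧
    ∀ j < r, ∀ k, k + s j < K → Link H j (cl k) (cl (k + s j))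

end

/-! ### systems with two orders -/

/-- local conditions for labelled structures with two orders -/
structure TS (Q : Type) where
  /-- all elements -/
  U : Q → Prop
  /-- the first element of the first order -/
  F1 : Q → Prop
  /-- the last element of the first order -/
  L1 : Q → Prop
  /-- neighbours in the first order -/
  C1 : Q → Q → Prop
  /-- the first element of the second order -/
  F2 : Q → Prop
  /-- the last element of the second order -/
  L2 : Q → Prop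
  /-- neighbours in the second order -/
  C2 : Q → Q → Prop
  /-- the two orders agree on such pairs -/
  Ag : Q → Q → Prop

/-- `b` is the successor of `a` in the second order, which is given by the keys -/
def Cov (key : ℕ → ℕ) (N a b : ℕ) : Prop :=
  key a < key b ∧ ∀ c < N, ¬ (key a < key c ∧ key c < key b)

/-- the labelling `lab` and the keys (the second order) satisfy the conditions -/
def TSM {Q : Type} (τ : TS Q) (N : ℕ) (lab : ℕ → Q) (key : ℕ → ℕ) : Prop :=
  (∀ a < N, ∀ b < N, key a = key b → a = b) ∧ (∀ a < N, τ.U (lab a)) ∧ τ.F1 (lab 0) ∧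
    τ.L1 (lab (N - 1)) ∧ (∀ a, a + 1 < N → τ.C1 (lab a) (lab (a + 1))) ∧
    (∀ a < N, (∀ b < N, key a ≤ key b) → τ.F2 (lab a)) ∧
    (∀ a < N, (∀ b < N, key b ≤ key a) → τ.L2 (lab a)) ∧
    (∀ a < N, ∀ b < N, Cov key N a b → τ.C2 (lab a) (lab b)) ∧
    ∀ a < N, ∀ b < N, a < b → τ.Ag (lab a) (lab b) → key a < key b

section
variable {r : ℕ} {T : Type}

/-- the label of a letter with an outgoing link in direction `j` -/
def Elow (j : ℕ) (q : Fin (2 * r) × Cell r T) : Prop := q.1.val = 2 * j + 1 ∧ fl q.2 1 j = false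

/-- the label of a letter with an incoming link in direction `j` -/
def Dlow (j : ℕ) (q : Fin (2 * r) × Cell r T) : Prop := q.1.val = 2 * j ∧ fl q.2 0 j = false

/-- the system of the bundles: every cell is a bundle of `2 r` letters -/
def bTS (G : (ℕ → Bool) → (ℕ → Bool) → T → Prop) (H : ℕ → T → T → Prop) :
    TS (Fin (2 * r) × Cell r T) where
  U := fun q => CellG G q.2
  F1 := fun q => q.1.val = 0 ∧ CellFirst q.2
  L1 := fun q => q.1.val + 1 = 2 * r ∧ CellLast q.2
  C1 := fun q q' => (q'.1.val = q.1.val + 1 ∧ q'.2 = q.2) ∨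
    (q.1.val + 1 = 2 * r ∧ q'.1.val = 0 ∧ CellStep q.2 q'.2)
  F2 := fun q => ∀ j < r, ¬ Dlow j q
  L2 := fun q => ∀ j < r, ¬ Elow j q
  C2 := fun q q' => ∀ j < r, (Elow j q ↔ Dlow j q') ∧ (Elow j q → Link H j q.2 q'.2)
  Ag := fun q q' => ∃ j < r, (Elow j q ∧ Elow j q') ∨ (Dlow j q ∧ Dlow j q')

end

/-! ### the tiles of a first-order formula -/

/-- the bits of the subformulas: `rel`, `eq`: truth value; `all`: truth value, truth value up to the
present coordinate -/
def tb : Fm → Type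
  | .rel _ _ => Bool
  | .eq _ _ => Bool
  | .neg φ => tb φ
  | .and φ ψ => tb φ × tb ψ
  | .all _ φ => Bool × Bool × tb φ

/-- the truth value -/
def tw : (φ : Fm) → tb φ → Bool
  | .rel _ _, t => t
  | .eq _ _, t => t
  | .neg φ, t => !(tw φ t)
  | .and φ ψ, t => tw φ t.1 && tw ψ t.2
  | .all _ _, t => t.1

/-- a bound for the relation symbols -/
def rb : Fm → ℕ
  | .rel i _ => i + 1
  | .eq _ _ => 0
  | .neg φ => rb φ
  | .and φ ψ => max (rb φ) (rb ψ)
  | .all _ φ => rb φ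

/-- a bound for the arities -/
def ab : Fm → ℕ
  | .rel _ xs => xs.length
  | .eq _ _ => 0
  | .neg φ => ab φ
  | .and φ ψ => max (ab φ) (ab ψ)
  | .all _ φ => ab φ

/-- the comparisons of the coordinates (`1`: `x i = x j`, `2`: `x i = x j + 1`) -/
abbrev Dl (r : ℕ) : Type := Fin r → Fin r → Fin 3

/-- the truth values of the relations `i < B` with `a ≤ C` arguments -/
abbrev Rh (B C : ℕ) : Type := Fin B → Fin (C + 1) → Bool

/-- the comparison of the coordinates `i` and `j` -/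
def dl {r : ℕ} (δ : Dl r) (i j : ℕ) : Fin 3 := if h : i < r ∧ j < r then δ ⟨i, h.1⟩ ⟨j, h.2⟩ else 0

/-- the truth value of the relation `i` with `a` arguments -/
def rh {B C : ℕ} (ρ : Rh B C) (i a : ℕ) : Bool :=
  if h : i < B ∧ a < C + 1 then ρ ⟨i, h.1⟩ ⟨a, h.2⟩ else false

section
variable {r B C : ℕ}

/-- the condition for one cell; `d` is the first spare coordinate -/
def LG (d : ℕ) (z l : ℕ → Bool) (δ : Dl r) (ρ : Rh B C) : (φ : Fm) → tb φ → Prop
  | .rel i xs, t => (∀ k < xs.length, dl δ (d + k) (xs.getD k 0) = 1) → t = rh ρ i xs.length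
  | .eq x y, t => (t = true) ↔ (x = y ∨ dl δ x y = 1)
  | .neg φ, t => LG d z l δ ρ φ t
  | .and φ ψ, t => LG d z l δ ρ φ t.1 ∧ LG d z l δ ρ ψ t.2
  | .all x φ, t => (z x = true → t.2.1 = tw φ t.2.2) ∧ (l x = true → t.1 = t.2.1) ∧
      LG d z l δ ρ φ t.2.2

/-- the condition for neighbours in direction `j` -/
def LH (j : ℕ) : (φ : Fm) → tb φ → tb φ → Prop
  | .rel _ xs, t, t' => j ∉ xs → t = t'
  | .eq _ _, _, _ => True
  | .neg φ, t, t' => LH j φ t t'
  | .and φ ψ, t, t' => LH j φ t.1 t'.1 ∧ LH j ψ t.2 t'.2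
  | .all x φ, t, t' => (j = x → t.1 = t'.1 ∧ t'.2.1 = (t.2.1 && tw φ t'.2.2)) ∧
      LH j φ t.2.2 t'.2.2

end

/-- the tiles -/
abbrev Tile (r B C : ℕ) (φ : Fm) : Type := Dl r × Rh B C × tb φ

/-- the condition for one cell -/
def GG' (d r B C : ℕ) (φ : Fm) (z l : ℕ → Bool) (t : Tile r B C φ) : Prop :=
  (∀ i < r, ∀ j < r, i ≠ j → (z i = true → dl t.1 i j ≠ 2) ∧
    (z j = true → (dl t.1 i j = 1 ↔ z i = true)) ∧
    (dl t.1 i j = 1 → (l i = true ↔ l j = true))) ∧
    LG d z l t.1 t.2.1 φ t.2.2 ∧ tw φ t.2.2 = true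

/-- the condition for neighbours in direction `j` -/
def HH' (d r B C : ℕ) (φ : Fm) (j : ℕ) (t t' : Tile r B C φ) : Prop :=
  (∀ i < r, i ≠ j → (dl t.1 j i = 1 ↔ dl t'.1 j i = 2) ∧ (dl t.1 i j = 2 ↔ dl t'.1 i j = 1)) ∧
    (∀ i < B, ∀ a ≤ C, ¬ (d ≤ j ∧ j < d + a) → rh t.2.1 i a = rh t'.2.1 i a) ∧
    LH j φ t.2.2 t'.2.2

/-- the assignment of a cell -/
def va (d : ℕ) (x : ℕ → ℕ) : ℕ → ℕ := fun y => if y < d then x y else 0

/-- the intended tiles -/
noncomputable def tt (d m : ℕ) (I : ℕ → List ℕ → Prop) : (φ : Fm) → (x : ℕ → ℕ) → tb φ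
  | .rel i xs, x => @decide (I i (xs.map (va d x))) (Classical.dec _)
  | .eq y y', x => decide (va d x y = va d x y')
  | .neg φ, x => tt d m I φ x
  | .and φ ψ, x => (tt d m I φ x, tt d m I ψ x)
  | .all y φ, x => (@decide (∀ a < m, Sat (· < m) I φ (Function.update (va d x) y a)) (Classical.dec _),
      @decide (∀ a ≤ x y, Sat (· < m) I φ (Function.update (va d x) y a)) (Classical.dec _),
      tt d m I φ x)

/-! ### mixed radix -/

/-- the weights -/
def wt (n : ℕ → ℕ) (j : ℕ) : ℕ := ∏ i ∈ Finset.range j, n i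

/-- the number of a cell -/
def idx (r : ℕ) (n x : ℕ → ℕ) : ℕ := ∑ i ∈ Finset.range r, x i * wt n i

/-- the digits of a number -/
def dig (n : ℕ → ℕ) (k j : ℕ) : ℕ := k / wt n j % n j

/-! ### definability in two-variable logic with counting -/

/-- predicates of structures on `{0, …, n - 1}` with two elements -/
abbrev Pd2 := (n : ℕ) → (P : ℕ → ℕ → Prop) → (R : ℕ → ℕ → ℕ → Prop) → ℕ → ℕ → Prop

/-- definable with the binary relations `R 0, …, R 3` -/
def CD (F : Pd2) : Prop := ∃ φ : C2, φ.BinLt 4 ∧ ∀ n P R (s : Bool → ℕ), (∀ w, s w < n) →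
  (φ.SatN n P R s ↔ F n P R (s false) (s true))

end Pool.Agent.H16.TO
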