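import Pool.Agent.H16.TO.Sys

/-!
# Two-variable logic with counting over linear orders: targets
-/

set_option autoImplicit false

namespace Pool.Agent.H16.TO

open Pool.Agent.H69.Sp Pool.Agent.H69.Mt

/-! ### B: bridge to `ℕ` -/

/-- models on initial segments of `ℕ` -/
def T_BR : Prop := ∀ (l : ℕ) (φ : C2) (n : ℕ), n ∈ specO l φ ↔ 0 < n ∧
  ∃ (P : ℕ → ℕ → Prop) (R : ℕ → ℕ → ℕ → Prop), (∀ j < l, STOn n (R j)) ∧
    ∀ s : Bool → ℕ, (∀ w, s w < n) → φ.SatN n P R s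

/-- strict linear orders are given by keys, which may be chosen to be a permutation -/
def T_KY : Prop := ∀ (n : ℕ) (r : ℕ → ℕ → Prop), STOn n r → ∃ key : ℕ → ℕ,
  (∀ a < n, key a < n) ∧ (∀ a < n, ∀ b < n, key a = key b → a = b) ∧
    ∀ a < n, ∀ b < n, (r a b ↔ key a < key b)

/-- transport along a permutation of `{0, …, n - 1}` -/
def T_TR : Prop := ∀ (n : ℕ) (f : ℕ → ℕ), (∀ a < n, f a < n) →
  (∀ a < n, ∀ b < n, f a = f b → a = b) → ∀ (P P' : ℕ → ℕ → Prop) (R R' : ℕ → ℕ → ℕ → Prop),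
    (∀ i, ∀ a < n, (P i a ↔ P' i (f a))) → (∀ i, ∀ a < n, ∀ b < n, (R i a b ↔ R' i (f a) (f b))) →
      ∀ (φ : C2) (s : Bool → ℕ), (∀ w, s w < n) →
        (φ.SatN n P R s ↔ φ.SatN n P' R' (fun w => f (s w)))

/-- satisfaction depends only on the relations below `φ.bd` and on the elements below `n` -/
def T_SC : Prop := ∀ (φ : C2) (n : ℕ) (P P' : ℕ → ℕ → Prop) (R R' : ℕ → ℕ → ℕ → Prop),
  (∀ i < φ.bd, ∀ a < n, (P i a ↔ P' i a)) →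
  (∀ i < φ.bd, ∀ a < n, ∀ b < n, (R i a b ↔ R' i a b)) →
    ∀ s : Bool → ℕ, (∀ w, s w < n) → (φ.SatN n P R s ↔ φ.SatN n P' R' s)

/-- one order: it may be taken to be the order of `ℕ` -/
def T_B1 : Prop := ∀ (φ : C2) (n : ℕ), n ∈ specO 1 φ ↔ 0 < n ∧
  ∃ (P : ℕ → ℕ → Prop) (R : ℕ → ℕ → ℕ → Prop), (∀ a b, R 0 a b ↔ a < b) ∧
    ∀ s : Bool → ℕ, (∀ w, s w < n) → φ.SatN n P R s

/-- two orders: the first may be taken to be the order of `ℕ`, the second is given by keys -/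
def T_B2 : Prop := ∀ (φ : C2) (n : ℕ), n ∈ specO 2 φ ↔ 0 < n ∧
  ∃ (P : ℕ → ℕ → Prop) (R : ℕ → ℕ → ℕ → Prop) (key : ℕ → ℕ), (∀ a b, R 0 a b ↔ a < b) ∧
    (∀ a < n, ∀ b < n, key a = key b → a = b) ∧ (∀ a b, R 1 a b ↔ key a < key b) ∧
    ∀ s : Bool → ℕ, (∀ w, s w < n) → φ.SatN n P R s

/-- the closure of a formula -/
def T_CL : Prop := ∀ (φ : C2) (n : ℕ), 0 < n → ∀ (P : ℕ → ℕ → Prop) (R : ℕ → ℕ → ℕ → Prop),
  ((∀ s : Bool → ℕ, (∀ w, s w < n) → φ.SatN n P R s) ↔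
    ∀ a < n, φ.clo.SatN n P R (fun _ => a))

/-! ### N: from formulas to one-order systems -/

/-- correct bits compute the truth values -/
def T_EV : Prop := ∀ (φ : C2) (n : ℕ) (P : ℕ → ℕ → Prop) (R : ℕ → ℕ → ℕ → Prop) (g : ℕ → φ.Bt),
  φ.Good n P R g → ∀ s : Bool → ℕ, (∀ w, s w < n) → (φ.SatN n P R s ↔ φ.evA P R g s)

/-- correct bits exist -/
def T_GE : Prop := ∀ (φ : C2) (n : ℕ) (P : ℕ → ℕ → Prop) (R : ℕ → ℕ → ℕ → Prop),
  ∃ g : ℕ → φ.Bt, φ.Good n P R g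

/-- the bits form a finite nonempty type -/
def T_BF : Prop := ∀ φ : C2, Finite φ.Bt ∧ Nonempty φ.Bt

/-- counting by labels and types, capped -/
def T_CT : Prop := ∀ (Λ Θ : Type) [Fintype Λ] [Fintype Θ] [DecidableEq Λ] [DecidableEq Θ] (K : ℕ)
  (lam : ℕ → Λ) (th : ℕ → ℕ → Θ) (n a : ℕ), a < n →
  ∀ (F : ℕ → Prop) (FL FR : Λ × Θ → Prop) [DecidablePred FL] [DecidablePred FR] (D : Prop)
    [Decidable D], (∀ b < a, (F b ↔ FL (lam b, th b a))) → (F a ↔ D) →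
    (∀ b, a < b → b < n → (F b ↔ FR (lam b, th a b))) → ∀ k ≤ K,
      (k ≤ {b | b < n ∧ F b}.ncard ↔ k ≤ (∑ p with FL p, (capn K (Lc lam th a p)).val) +
        (if D then 1 else 0) + ∑ p with FR p, (capn K (Rc lam th a n p)).val)

/-- evaluation at a pair of elements is local: earlier partner, later partner, the element itself -/
def T_LO : Prop := ∀ (B : ℕ) (X : Type) (φ : C2) (π : X → φ.Bt) (lam : ℕ → Lab B X)
  (th : ℕ → ℕ → Ty B) (v : Bool) (a b : ℕ),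
  (b < a → (φ.evA (PfL lam) (RfL lam th) (fun c => π (lam c).2.2) (fun x => if x = v then b else a) ↔
    ev2 φ π (lam b) (lam a) (th b a) (fun x => if x = v then 0 else 1))) ∧
  (a < b → (φ.evA (PfL lam) (RfL lam th) (fun c => π (lam c).2.2) (fun x => if x = v then b else a) ↔
    ev2 φ π (lam a) (lam b) (th a b) (fun x => if x = v then 1 else 0))) ∧
  (φ.evA (PfL lam) (RfL lam th) (fun c => π (lam c).2.2) (fun _ => a) ↔
    ev2 φ π (lam a) (lam a) (fun _ => false, fun _ => false) (fun _ => 0))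

/-- the local form of `C2.Good` -/
def T_OK : Prop := ∀ (B : ℕ) (X : Type) [Fintype X] [DecidableEq X] (K : ℕ) (φ : C2) (π : X → φ.Bt)
  (lam : ℕ → Lab B X) (th : ℕ → ℕ → Ty B) (n : ℕ), φ.th ≤ K →
    (φ.Good n (PfL lam) (RfL lam th) (fun a => π (lam a).2.2) ↔
      ∀ a < n, OkF K φ π (lam a) (fun p => capn K (Lc lam th a p))
        (fun p => capn K (Rc lam th a n p)))

/-- every formula defines a one-order system -/
def T_N1 : Prop := ∀ φ : C2, ∃ (Λ Θ : Type) (_ : Fintype Λ) (_ : Fintype Θ) (_ : DecidableEq Λ)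
  (_ : DecidableEq Θ) (_ : Nonempty Λ) (_ : Nonempty Θ) (K : ℕ)
  (Ok : Λ → (Λ × Θ → Fin (K + 1)) → (Λ × Θ → Fin (K + 1)) → Prop),
    ∀ n, n ∈ specO 1 φ ↔ 0 < n ∧ OneSys K Ok n

/-! ### R: runs of one-order systems -/

/-- prescribed numbers in the fibres -/
def T_FB : Prop := ∀ (ι Θ : Type) [Fintype Θ] [DecidableEq ι] [DecidableEq Θ] [Nonempty Θ]
  (f : ℕ → ι) (t : ℕ) (m : ι × Θ → ℕ),
    (∀ σ, ∑ θ, m (σ, θ) = ((Finset.range t).filter fun a => f a = σ).card) →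
      ∃ g : ℕ → Θ, ∀ σ θ, ((Finset.range t).filter fun a => f a = σ ∧ g a = θ).card = m (σ, θ)

/-- one more element -/
def T_RS : Prop := ∀ (Λ Θ : Type) [Fintype Λ] [Fintype Θ] [DecidableEq Λ] [DecidableEq Θ]
  (K : ℕ) (lam : ℕ → Λ) (th : ℕ → ℕ → Θ) (t : ℕ) (m : St Λ Θ K × Θ → ℕ),
    (∀ σ θ, m (σ, θ) = ((Finset.range t).filter fun a => stt K lam th t a = σ ∧ th a t = θ).card) →
      (∀ a < t, stt K lam th (t + 1) a = upd (stt K lam th t a) (lam t) (th a t)) ∧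
      stt K lam th (t + 1) t = newSt (lam t) m ∧
      Step (conf K lam th t) (lam t) m (conf K lam th (t + 1))

/-- every step continues every labelling -/
def T_RX : Prop := ∀ (Λ Θ : Type) [Fintype Λ] [Fintype Θ] [DecidableEq Λ] [DecidableEq Θ]
  [Nonempty Θ] (K : ℕ) (lam : ℕ → Λ) (th : ℕ → ℕ → Θ) (t : ℕ) (b : Λ) (m : St Λ Θ K × Θ → ℕ),
    (∀ σ, ∑ θ, m (σ, θ) = conf K lam th t σ) → ∃ (lam' : ℕ → Λ) (th' : ℕ → ℕ → Θ),
      lam' t = b ∧ (∀ a < t, lam' a = lam a) ∧ (∀ a < t, ∀ c < t, th' a c = th a c) ∧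
      conf K lam' th' t = conf K lam th t ∧
      ∀ σ θ, m (σ, θ) = ((Finset.range t).filter fun a =>
        stt K lam' th' t a = σ ∧ th' a t = θ).card

/-- the reachable configurations are the configurations of the labellings -/
def T_RC : Prop := ∀ (Λ Θ : Type) [Fintype Λ] [Fintype Θ] [DecidableEq Λ] [DecidableEq Θ]
  [Nonempty Λ] [Nonempty Θ] (K t : ℕ) (c : St Λ Θ K → ℕ),
    Reach t c ↔ ∃ (lam : ℕ → Λ) (th : ℕ → ℕ → Θ), c = conf K lam th t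

/-- models in terms of reachable configurations, last step separated -/
def T_RO : Prop := ∀ (Λ Θ : Type) [Fintype Λ] [Fintype Θ] [DecidableEq Λ] [DecidableEq Θ]
  [Nonempty Λ] [Nonempty Θ] (K : ℕ)
  (Ok : Λ → (Λ × Θ → Fin (K + 1)) → (Λ × Θ → Fin (K + 1)) → Prop) (n : ℕ),
    OneSys K Ok (n + 1) ↔ ∃ (c : St Λ Θ K → ℕ) (b : Λ) (m : St Λ Θ K × Θ → ℕ), Reach n c ∧
      (∀ σ, ∑ θ, m (σ, θ) = c σ) ∧ (∀ p, m p ≠ 0 → OkSt Ok (upd p.1 b p.2)) ∧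
      OkSt Ok (newSt b m)

/-- finitely many conditions -/
def T_FI : Prop := ∀ (ι : Type) [Finite ι] (P : ι → Pd), (∀ i, FD (P i)) →
  FD (fun N E v => ∀ i, P i N E v) ∧ FD (fun N E v => ∃ i, P i N E v)

/-- sums of variables -/
def T_FS : Prop := ∀ (L : List ℕ), (∀ x, FD (fun _ _ v => (L.map v).sum = v x)) ∧
  (∀ x, FD (fun _ _ v => (L.map v).sum + 1 = v x)) ∧
  ∀ (K : ℕ) (u : Fin (K + 1)), FD (fun _ _ v => capn K (L.map v).sum = u)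

/-- quantification over several variables -/
def T_FA : Prop := ∀ (P : Pd) (b k : ℕ), FD P →
  FD (fun N E v => ∀ f : ℕ → ℕ, (∀ i, f i < N) → P N E (updN v b k f))

/-- one step is first-order -/
def T_FT : Prop := ∀ (Λ Θ : Type) [Fintype Λ] [Fintype Θ] [DecidableEq Λ] [DecidableEq Θ]
  (K : ℕ) (b : Λ) (ic ic' : St Λ Θ K → ℕ) (im : St Λ Θ K × Θ → ℕ)
  (Q : St Λ Θ K → Prop),
    FD (fun _ _ v => Step (fun σ => v (ic σ)) b (fun p => v (im p)) (fun σ => v (ic' σ))) ∧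
    FD (fun _ _ v => (∀ σ, ∑ θ, v (im (σ, θ)) = v (ic σ)) ∧
      (∀ p, v (im p) ≠ 0 → Q (upd p.1 b p.2)) ∧ Q (newSt b (fun p => v (im p))))

/-- the complement of the spectrum of a one-order system is a spectrum -/
def T_CE : Prop := ∀ (Λ Θ : Type) [Fintype Λ] [Fintype Θ] [DecidableEq Λ] [DecidableEq Θ]
  [Nonempty Λ] [Nonempty Θ] (K : ℕ)
  (Ok : Λ → (Λ × Θ → Fin (K + 1)) → (Λ × Θ → Fin (K + 1)) → Prop),
    IsSpectrum {n | 0 < n ∧ ¬ OneSys K Ok n}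

/-! ### G: tilings of boxes for first-order formulas -/

/-- constancy along coordinates -/
def T_CN : Prop := ∀ (α : Type) (r : ℕ) (n : ℕ → ℕ) (J : Set ℕ) (g : (ℕ → ℕ) → α),
  (∀ x : ℕ → ℕ, (∀ i, x i < n i) → ∀ j < r, j ∉ J → x j + 1 < n j →
    g x = g (Function.update x j (x j + 1))) →
  ∀ x y : ℕ → ℕ, (∀ i, x i < n i) → (∀ i, y i < n i) → (∀ j, (j ∈ J ∨ r ≤ j) → x j = y j) →
    g x = g y

/-- comparison of two coordinates -/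
def T_CM : Prop := ∀ (n : ℕ → ℕ) (i j : ℕ) (δ : (ℕ → ℕ) → Fin 3), i ≠ j →
  (∀ x : ℕ → ℕ, (∀ k, x k < n k) → x i = 0 → δ x ≠ 2) →
  (∀ x : ℕ → ℕ, (∀ k, x k < n k) → x j = 0 → (δ x = 1 ↔ x i = 0)) →
  (∀ x : ℕ → ℕ, (∀ k, x k < n k) → x i + 1 < n i →
    (δ x = 1 ↔ δ (Function.update x i (x i + 1)) = 2)) →
  (∀ x : ℕ → ℕ, (∀ k, x k < n k) → x j + 1 < n j →
    (δ x = 2 ↔ δ (Function.update x j (x j + 1)) = 1)) →
  ∀ x : ℕ → ℕ, (∀ k, x k < n k) → (δ x = 1 ↔ x i = x j) ∧ (δ x = 2 ↔ x i = x j + 1)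

/-- the tile bits of the subformulas are correct -/
def T_GI : Prop := ∀ (d m B C : ℕ) (n : ℕ → ℕ), Box (d + C) n → (∀ i < d + C, n i = m) →
  ∀ (δ : (ℕ → ℕ) → Dl (d + C)) (ρ : (ℕ → ℕ) → Rh B C) (I : ℕ → List ℕ → Prop),
    (∀ x : ℕ → ℕ, (∀ i, x i < n i) → ∀ i < d + C, ∀ j < d + C, i ≠ j →
      (dl (δ x) i j = 1 ↔ x i = x j)) →
    (∀ x : ℕ → ℕ, (∀ i, x i < n i) → ∀ i < B, ∀ a ≤ C,
      (rh (ρ x) i a = true ↔ I i ((List.range a).map fun k => x (d + k)))) →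
    ∀ (φ : Fm), φ.bd ≤ d → rb φ ≤ B → ab φ ≤ C → ∀ t : (ℕ → ℕ) → tb φ,
      (∀ x : ℕ → ℕ, (∀ i, x i < n i) → LG d (fun i => decide (x i = 0))
        (fun i => decide (x i + 1 = n i)) (δ x) (ρ x) φ (t x)) →
      (∀ x : ℕ → ℕ, (∀ i, x i < n i) → ∀ j < d + C, x j + 1 < n j →
        LH j φ (t x) (t (Function.update x j (x j + 1)))) →
      ∀ x : ℕ → ℕ, (∀ i, x i < n i) → (tw φ (t x) = true ↔ Sat (· < m) I φ (va d x))

/-- soundness -/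
def T_GS : Prop := ∀ (d B C : ℕ) (φ : Fm), φ.bd ≤ d → rb φ ≤ B → ab φ ≤ C → 0 < d →
  ∀ (n : ℕ → ℕ), Box (d + C) n → Tiles (d + C) (GG' d (d + C) B C φ) (HH' d (d + C) B C φ) n →
    (∀ i < d + C, n i = n 0) ∧ ∃ I : ℕ → List ℕ → Prop, Sat (· < n 0) I φ (fun _ => 0)

/-- completeness -/
def T_GC : Prop := ∀ (d B C : ℕ) (φ : Fm), Closed φ → φ.bd ≤ d → rb φ ≤ B → ab φ ≤ C → 0 < d →
  ∀ (n : ℕ → ℕ), Box (d + C) n → (∀ i < d + C, n i = n 0) →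
    (∃ I : ℕ → List ℕ → Prop, Sat (· < n 0) I φ (fun _ => 0)) →
    Tiles (d + C) (GG' d (d + C) B C φ) (HH' d (d + C) B C φ) n

/-- the tile bits of the subformulas form a finite type -/
def T_TF : Prop := ∀ φ : Fm, Finite (tb φ)

/-- spectra are given by tilings of boxes -/
def T_GT : Prop := ∀ S : Set ℕ, IsSpectrum S → ∃ (r : ℕ) (T : Type)
  (G : (ℕ → Bool) → (ℕ → Bool) → T → Prop) (H : ℕ → T → T → Prop), 0 < r ∧ Finite T ∧
    ∀ n, Box r n → (Tiles r G H n ↔ ∃ m ∈ S, ∀ i < r, n i = m)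

/-! ### E: boxes in two orders -/

/-- one level of the mixed radix system -/
def T_LV : Prop := ∀ (K s s' : ℕ) (Z M : ℕ → Bool), 0 < K → 0 < s → s ∣ K → Z 0 = true →
  M (K - 1) = true → (∀ k, k + 1 < K → (k + 1) % s ≠ 0 → Z (k + 1) = Z k ∧ M (k + 1) = M k) →
  (∀ k, k + 1 < K → (k + 1) % s = 0 → Z (k + 1) = M k) → 0 < s' → s' ≤ K →
  (∀ k, k + 1 < s' → ¬ ((k + 1) % s = 0 ∧ M k = true)) → s' % s = 0 → M (s' - 1) = true →
  (∀ k, k + s' < K → M (k + s') = M k) →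
    ∃ n, 0 < n ∧ s' = s * n ∧ s' ∣ K ∧ ∀ k < K, (M k = true ↔ k / s % n + 1 = n) ∧
      (Z k = true ↔ k / s % n = 0)

/-- carries -/
def T_CY : Prop := ∀ (n : ℕ → ℕ), (∀ i, 0 < n i) → ∀ k j : ℕ,
  ((∀ i < j, dig n k i + 1 = n i) ↔ (k + 1) % wt n j = 0)

/-- the digits of the next number -/
def T_DS : Prop := ∀ (n : ℕ → ℕ), (∀ i, 0 < n i) → ∀ k j : ℕ,
  ((k + 1) % wt n j ≠ 0 → dig n (k + 1) j = dig n k j) ∧
  ((k + 1) % wt n j = 0 → (dig n (k + 1) j = 0 ↔ dig n k j + 1 = n j))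

/-- numbers and digits -/
def T_MR : Prop := ∀ (r : ℕ) (n : ℕ → ℕ), Box r n →
  (∀ x : ℕ → ℕ, (∀ i, x i < n i) → idx r n x < wt n r ∧ ∀ j, dig n (idx r n x) j = x j) ∧
  (∀ x : ℕ → ℕ, ∀ j < r, idx r n (Function.update x j (x j + 1)) = idx r n x + wt n j) ∧
  (∀ k, (∀ i, dig n k i < n i) ∧ (k < wt n r → idx r n (dig n k) = k)) ∧
  (∀ k j i, i < j → dig n (k + wt n j) i = dig n k i) ∧
  ∀ k j, dig n k j + 1 < n j → dig n (k + wt n j) = Function.update (dig n k) j (dig n k j + 1)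

/-- a row of cells is a box -/
def T_LS : Prop := ∀ (r : ℕ) (T : Type) (G : (ℕ → Bool) → (ℕ → Bool) → T → Prop)
  (H : ℕ → T → T → Prop) (K : ℕ) (cl : ℕ → Cell r T) (s : ℕ → ℕ), 0 < K → CellSys G H K cl s →
    ∃ n, Box r n ∧ (∀ j < r, s j = wt n j) ∧ K = wt n r ∧ ∀ k < K, ∀ j < r,
      (fl (cl k) 2 j = true ↔ dig n k j = 0) ∧ (fl (cl k) 3 j = true ↔ dig n k j + 1 = n j)

/-- from rows of cells to tilings -/
def T_CA : Prop := ∀ (r : ℕ) (T : Type) (G : (ℕ → Bool) → (ℕ → Bool) → T → Prop)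
  (H : ℕ → T → T → Prop) (K : ℕ) (cl : ℕ → Cell r T) (s : ℕ → ℕ), 0 < K → CellSys G H K cl s →
    ∃ n, Box r n ∧ K = wt n r ∧ Tiles r G H n

/-- from tilings to rows of cells -/
def T_CB : Prop := ∀ (r : ℕ) (T : Type) (G : (ℕ → Bool) → (ℕ → Bool) → T → Prop)
  (H : ℕ → T → T → Prop) (n : ℕ → ℕ), Box r n → Tiles r G H n →
    ∃ (cl : ℕ → Cell r T) (s : ℕ → ℕ), CellSys G H (wt n r) cl s

/-- the shift: two classes which alternate in the second order and on which the orders agree -/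
def T_SH : Prop := ∀ (N K A s : ℕ) (key e d : ℕ → ℕ), StrictMono e → StrictMono d →
  (∀ k < K, e k < N) → (∀ k < K, d k < N) → A ≤ K → s ≤ K →
  (∀ a < N, ∀ b < N, key a = key b → a = b) →
  (∀ a < N, ∀ b < N, Cov key N a b →
    ((∃ k < A, a = e k) ↔ ∃ k, s ≤ k ∧ k < K ∧ b = d k)) →
  (∀ k < A, ∃ b < N, key (e k) < key b) → (∀ k, s ≤ k → k < K → ∃ b < N, key b < key (d k)) →
  (∀ k k', k < k' → k' < A → key (e k) < key (e k')) →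
  (∀ k k', s ≤ k → k < k' → k' < K → key (d k) < key (d k')) →
    A = K - s ∧ ∀ k < A, Cov key N (e k) (d (k + s))

/-- from bundles to cells -/
def T_TA : Prop := ∀ (r : ℕ) (T : Type) (G : (ℕ → Bool) → (ℕ → Bool) → T → Prop)
  (H : ℕ → T → T → Prop) (N : ℕ) (lab : ℕ → Fin (2 * r) × Cell r T) (key : ℕ → ℕ), 0 < r → 0 < N →
    TSM (bTS G H) N lab key → ∃ K, 0 < K ∧ N = 2 * r * K ∧
      ∃ (cl : ℕ → Cell r T) (s : ℕ → ℕ), CellSys G H K cl s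

/-- from cells to bundles -/
def T_TB : Prop := ∀ (r : ℕ) (T : Type) (G : (ℕ → Bool) → (ℕ → Bool) → T → Prop)
  (H : ℕ → T → T → Prop) (K : ℕ) (cl : ℕ → Cell r T) (s : ℕ → ℕ), 0 < r → 0 < K →
    CellSys G H K cl s →
      ∃ (lab : ℕ → Fin (2 * r) × Cell r T) (key : ℕ → ℕ), TSM (bTS G H) (2 * r * K) lab key

/-- successor relations by counting -/
def T_SU : Prop := ∀ (n : ℕ) (key : ℕ → ℕ) (S : ℕ → ℕ → Prop),
  (∀ a < n, ∀ b < n, key a = key b → a = b) →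
  (∀ a < n, ∀ b < n, S a b → key a < key b) → (∀ b < n, ¬ 2 ≤ {a | a < n ∧ S a b}.ncard) →
  (∀ a < n, (∃ b < n, key a < key b) → ∃ b < n, S a b) →
    ∀ a < n, ∀ b < n, (S a b ↔ Cov key n a b)

/-- closure properties of the definable predicates -/
def T_CD : Prop :=
  (∀ i, CD (fun _ P _ x _ => P i x) ∧ CD (fun _ P _ _ y => P i y)) ∧
  (∀ i < 4, CD (fun _ _ R x y => R i x y) ∧ CD (fun _ _ R x y => R i y x)) ∧
  CD (fun _ _ _ x y => x = y) ∧ (∀ p : Prop, CD (fun _ _ _ _ _ => p)) ∧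
  (∀ F, CD F → CD (fun n P R x y => ¬ F n P R x y)) ∧
  (∀ F F', CD F → CD F' → CD (fun n P R x y => F n P R x y ∧ F' n P R x y)) ∧
  (∀ F F', CD F → CD F' → CD (fun n P R x y => F n P R x y ∨ F' n P R x y)) ∧
  (∀ F F', CD F → CD F' → CD (fun n P R x y => F n P R x y → F' n P R x y)) ∧
  (∀ F, CD F → CD (fun n P R _ y => ∀ a < n, F n P R a y)) ∧
  (∀ F, CD F → CD (fun n P R x _ => ∀ b < n, F n P R x b)) ∧
  (∀ F, CD F → CD (fun n P R _ y => ∃ a < n, F n P R a y)) ∧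
  (∀ F, CD F → CD (fun n P R x _ => ∃ b < n, F n P R x b)) ∧
  (∀ F k, CD F → CD (fun n P R _ y => k ≤ {a | a < n ∧ F n P R a y}.ncard)) ∧
  (∀ (ι : Type) [Finite ι] (F : ι → Pd2), (∀ i, CD (F i)) →
    CD (fun n P R x y => ∀ i, F i n P R x y)) ∧
  (∀ (ι : Type) [Finite ι] (F : ι → Pd2), (∀ i, CD (F i)) →
    CD (fun n P R x y => ∃ i, F i n P R x y))

/-- the label of an element: `P i` holds exactly for the number of the label -/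
def LabAt {Q : Type} (enc : Q → ℕ) (P : ℕ → ℕ → Prop) (q : Q) (a : ℕ) : Prop :=
  P (enc q) a ∧ ∀ q', q' ≠ q → ¬ P (enc q') a

/-- the axioms of a system, in a structure -/
def AxT {Q : Type} (τ : TS Q) (enc : Q → ℕ) (n : ℕ) (P : ℕ → ℕ → Prop) (R : ℕ → ℕ → ℕ → Prop) :
    Prop :=
  (∀ a < n, ∃ q, LabAt enc P q a ∧ τ.U q) ∧
  (∀ a < n, ∀ b < n, R 2 a b → R 0 a b) ∧ (∀ b < n, ¬ 2 ≤ {a | a < n ∧ R 2 a b}.ncard) ∧
  (∀ a < n, (∃ b < n, R 0 a b) → ∃ b < n, R 2 a b) ∧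
  (∀ a < n, ∀ b < n, R 3 a b → R 1 a b) ∧ (∀ b < n, ¬ 2 ≤ {a | a < n ∧ R 3 a b}.ncard) ∧
  (∀ a < n, (∃ b < n, R 1 a b) → ∃ b < n, R 3 a b) ∧
  (∀ b < n, (∃ a < n, R 0 a b) ∨ ∃ q, LabAt enc P q b ∧ τ.F1 q) ∧
  (∀ a < n, (∃ b < n, R 0 a b) ∨ ∃ q, LabAt enc P q a ∧ τ.L1 q) ∧
  (∀ a < n, ∀ b < n, R 2 a b → ∃ q, ∃ q', (LabAt enc P q a ∧ LabAt enc P q' b) ∧ τ.C1 q q') ∧
  (∀ b < n, (∃ a < n, R 1 a b) ∨ ∃ q, LabAt enc P q b ∧ τ.F2 q) ∧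
  (∀ a < n, (∃ b < n, R 1 a b) ∨ ∃ q, LabAt enc P q a ∧ τ.L2 q) ∧
  (∀ a < n, ∀ b < n, R 3 a b → ∃ q, ∃ q', (LabAt enc P q a ∧ LabAt enc P q' b) ∧ τ.C2 q q') ∧
  ∀ a < n, ∀ b < n, R 0 a b →
    (∃ q, ∃ q', (LabAt enc P q a ∧ LabAt enc P q' b) ∧ τ.Ag q q') → R 1 a b

/-- the axioms are definable -/
def T_AD : Prop := ∀ (Q : Type) [Finite Q] (τ : TS Q) (enc : Q → ℕ), Function.Injective enc →
  CD (fun n P R _ _ => AxT τ enc n P R)

/-- the axioms define the models of the system -/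
def T_AM : Prop := ∀ (Q : Type) [Finite Q] (τ : TS Q) (enc : Q → ℕ), Function.Injective enc →
  ∀ n, 0 < n → ((∃ (P : ℕ → ℕ → Prop) (R : ℕ → ℕ → ℕ → Prop) (key : ℕ → ℕ),
    (∀ a b, R 0 a b ↔ a < b) ∧ (∀ a < n, ∀ b < n, key a = key b → a = b) ∧
      (∀ a b, R 1 a b ↔ key a < key b) ∧ AxT τ enc n P R) ↔
    ∃ (lab : ℕ → Q) (key : ℕ → ℕ), TSM τ n lab key)

/-- systems with two orders are given by formulas -/
def T_EB : Prop := ∀ (Q : Type) [Finite Q] (τ : TS Q), ∃ φ : C2, φ.BinLt 4 ∧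
  ∀ n, n ∈ specO 2 φ ↔ 0 < n ∧ ∃ (lab : ℕ → Q) (key : ℕ → ℕ), TSM τ n lab key

/-- tilings of boxes are given by formulas -/
def T_EN : Prop := ∀ (r : ℕ) (T : Type) [Finite T] (G : (ℕ → Bool) → (ℕ → Bool) → T → Prop)
  (H : ℕ → T → T → Prop), 0 < r → ∃ φ : C2, φ.BinLt 4 ∧ ∀ N, N ∈ specO 2 φ ↔
    ∃ n, Box r n ∧ N = 2 * r * wt n r ∧ Tiles r G H n

/-! ### S: spectra of two-variable formulas are spectra -/

/-- the counting quantifier is first-order -/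
def T_CQ : Prop := ∀ (F : ℕ → (ℕ → List ℕ → Prop) → ℕ → ℕ → Prop),
  FD (fun N E v => F N E (v 0) (v 1)) →
    FD (fun N E v => F N E (v 1) (v 0)) ∧
    FD (fun N E v => F N E (v 0) (v 0)) ∧
    ∀ k, FD (fun N E v => k ≤ {a | a < N ∧ F N E a (v 1)}.ncard)

/-- the satisfaction relation is first-order -/
def T_SF : Prop := ∀ φ : C2, FD (fun N E v => φ.SatN N (fun i a => E (2 * i) [a])
  (fun i a b => E (2 * i + 1) [a, b]) (fun w => if w then v 1 else v 0))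

/-- spectra of two-variable formulas are spectra -/
def T_S1 : Prop := ∀ (l : ℕ) (φ : C2), IsSpectrum (specO l φ)

/-- pull-back along monomials -/
def T_PB : Prop := ∀ X : Set ℕ, IsSpectrum X → ∀ c r : ℕ, 0 < c → 0 < r →
  IsSpectrum {n | 0 < n ∧ c * n ^ r ∈ X}

/-! ### the theorem -/

/-- one order -/
def T_P1 : Prop := ∀ φ : C2, IsSpectrum (posCompl (specO 1 φ))

/-- two orders -/
def T_P2 : Prop := ∀ S, IsSpectrum S → ∃ (φ : C2) (r : ℕ), 0 < r ∧ φ.BinLt 4 ∧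
  ∀ n, 0 < n → (n ∈ S ↔ 2 * r * n ^ r ∈ specO 2 φ)

/-- the equivalence -/
def T_P3 : Prop := (∀ S, IsSpectrum S → IsSpectrum (posCompl S)) ↔
  ∀ φ : C2, φ.BinLt 4 → IsSpectrum (posCompl (specO 2 φ))

end Pool.Agent.H16.TO
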